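import Pool.Agent.Lib.MP_1a91b9_ntX.DX.Defs

/-!
# DX: existence of the fields

Port of MP_1a91b9_ntT/DX/Ex.lean to the curves `y² = x³ + D`.
-/

set_option autoImplicit false

namespace Pool.Agent.Lib.MP_1a91b9_ntX.DX

open NumberField IsDedekindDomain WeierstrassCurve Pool.Agent.Lib.MP_1a91b9_ntT
open Pool.Agent.Lib.MP_1a91b9_ntX.DB

universe u

variable [DD]

private theorem exa_int {R : Type*} [Field R] [Algebra R ℂ] {x y : ℂ} (hx : _root_.IsIntegral R x)
    (h : y ^ 2 = x ^ 3 + dD ℂ) : _root_.IsIntegral R y := by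
  have h1 : _root_.IsIntegral R (dD ℂ) := by
    have h0 := isIntegral_algebraMap (R := R) (A := ℂ) (x := (dD R))
    rwa [map_intCast] at h0
  refine _root_.IsIntegral.of_pow (n := 2) (by norm_num) ?_
  rw [h]
  exact (hx.pow 3).add h1

/-- the points of `ℂ` killed by `β` are finite in number -/
private theorem exa_fin [DecidableEq ℂ] {β : 𝓞 K} (hβ : β ≠ 0) :
    {Q : Pt ℂ | sm ℂ β Q = 0}.Finite := by
  obtain ⟨R, hR⟩ := exists_ord_C hβ
  obtain ⟨T, hT, -⟩ := exists_isRes hβ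
  refine Set.Finite.subset ((Set.finite_singleton (0 : Pt ℂ)).union
    (T.finite_toSet.image (fun a => sm ℂ a R))) ?_
  intro Q hQ
  obtain ⟨c, hc⟩ := ord_cases (AlgHom.id K ℂ) hβ hR hQ
  by_cases hd : β ∣ c
  · left
    rw [Set.mem_singleton_iff, hc]
    exact (hR c).2 hd
  · right
    obtain ⟨a, ha, hda⟩ := hT.ex c hd
    exact ⟨a, ha, by rw [hc]; exact ((hR.sm_eq_iff c a).2 hda).symm⟩

private theorem exa_comp {F A : Type*} [Field F] [Field A] [Algebra K F] [Algebra K A]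
    [DecidableEq F] [DecidableEq A] [DecidableEq ℂ] (i : F →ₐ[K] A) (v : A →ₐ[K] ℂ)
    (f : F →ₐ[K] ℂ) (h : ∀ a, v (i a) = f a) (P : Pt F) : pm v (pm i P) = pm f P := by
  rcases cases_pt P with rfl | ⟨x, y, hxy, rfl⟩
  · rw [map_zero, map_zero, map_zero]
  · obtain ⟨h1, e1⟩ := pm_mk i x y hxy
    obtain ⟨h2, e2⟩ := pm_mk f x y hxy
    rw [e1, e2]
    obtain ⟨h3, e3⟩ := pm_mk v _ _ h1
    rw [e3, mk_inj]
    exact ⟨h x, h y⟩

private theorem exa_move {F A : Type*} [Field F] [Field A] [Algebra K F] [Algebra K A]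
    [DecidableEq F] [DecidableEq A] [DecidableEq ℂ] (i : F →ₐ[K] A) (v s : A →ₐ[K] ℂ)
    (f : F →ₐ[K] ℂ) (hv : ∀ a, v (i a) = f a) (hs : ∀ a, s (i a) = f a) {β : 𝓞 K} {P : Pt F}
    {Q : Pt A} (h : sm ℂ β (pm v Q) = pm f P) : sm ℂ β (pm s Q) = pm f P := by
  have h1 : sm A β Q = pm i P := by
    apply pm_inj v
    rw [pm_sm, h, exa_comp i v f hv]
  rw [← pm_sm, h1, exa_comp i s f hs]

open IntermediateField in
/-- an embedding of `F(x)` with a given value at `x` -/
private theorem exa_hom {F : Type*} [Field F] [Algebra F ℂ] {x c : ℂ}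
    (hx : Transcendental F x) (hc : Transcendental F c) :
    ∃ g : F⟮x⟯ →ₐ[F] ℂ, g (AdjoinSimple.gen F x) = c := by
  refine ⟨(F⟮c⟯).val.comp ((RatFunc.algEquivOfTranscendental c hc).toAlgHom.comp
    (RatFunc.algEquivOfTranscendental x hx).symm.toAlgHom), ?_⟩
  change ((RatFunc.algEquivOfTranscendental c hc
    ((RatFunc.algEquivOfTranscendental x hx).symm (AdjoinSimple.gen F x)) : F⟮c⟯) : ℂ) = c
  rw [RatFunc.algEquivOfTranscendental_symm_gen, RatFunc.algEquivOfTranscendental_X]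

open IntermediateField in
/-- the conjugates of a point over a transcendental one -/
private theorem exa_conj [DecidableEq ℂ] {F : Type*} [Field F] [Algebra K F]
    [DecidableEq F] (f : F →ₐ[K] ℂ) {β : 𝓞 K} {P : Pt F} {Q : Pt ℂ}
    (hQ : sm ℂ β Q = pm f P) (hQ0 : Q ≠ 0)
    (hx : letI := f.toRingHom.toAlgebra; Transcendental F (xc Q)) (c : ℂ)
    (hc : letI := f.toRingHom.toAlgebra; Transcendental F c) :
    ∃ Q' : Pt ℂ, sm ℂ β Q' = pm f P ∧ xc Q' = c := by
  classical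
  letI := f.toRingHom.toAlgebra
  haveI : IsScalarTower K F ℂ := IsScalarTower.of_algebraMap_eq fun a => (f.commutes a).symm
  obtain ⟨heq, hQe⟩ := exists_mk hQ0
  set x := xc Q with hxd
  set y := yc Q with hyd
  obtain ⟨g, hg⟩ := exa_hom hx hc
  obtain ⟨φ, hφ⟩ := IsAlgClosed.surjective_domRestrict_of_isAlgebraic (K := F) (L := F⟮x⟯)
    (E := algebraicClosure F⟮x⟯ ℂ) (M := ℂ) g
  have hxA : x ∈ algebraicClosure F⟮x⟯ ℂ := by
    rw [mem_algebraicClosure_iff]
    exact isAlgebraic_algebraMap (AdjoinSimple.gen F x)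
  have hyA : y ∈ algebraicClosure F⟮x⟯ ℂ := by
    rw [mem_algebraicClosure_iff]
    refine (exa_int (x := x) (y := y) ?_ heq).isAlgebraic
    exact isIntegral_algebraMap (x := AdjoinSimple.gen F x)
  letI : Algebra K (algebraicClosure F⟮x⟯ ℂ) :=
    ((algebraMap F (algebraicClosure F⟮x⟯ ℂ)).comp (algebraMap K F)).toAlgebra
  let i : F →ₐ[K] (algebraicClosure F⟮x⟯ ℂ) :=
    { algebraMap F (algebraicClosure F⟮x⟯ ℂ) with commutes' := fun _ => rfl }
  let v : (algebraicClosure F⟮x⟯ ℂ) →ₐ[K] ℂ :=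
    { algebraMap (algebraicClosure F⟮x⟯ ℂ) ℂ with
      commutes' := fun a => f.commutes a }
  let s : (algebraicClosure F⟮x⟯ ℂ) →ₐ[K] ℂ :=
    { (φ : (algebraicClosure F⟮x⟯ ℂ) →+* ℂ) with
      commutes' := fun a => (φ.commutes (algebraMap K F a)).trans (f.commutes a) }
  have hA : (⟨y, hyA⟩ : algebraicClosure F⟮x⟯ ℂ) ^ 2 = ⟨x, hxA⟩ ^ 3 + dD _ :=
    Subtype.ext (by
      push_cast
      exact heq)
  have hv : pm v (mkPt ⟨x, hxA⟩ ⟨y, hyA⟩ hA) = Q := by
    obtain ⟨h1, e1⟩ := pm_mk v ⟨x, hxA⟩ ⟨y, hyA⟩ hA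
    rw [e1, hQe, mk_inj]
    exact ⟨rfl, rfl⟩
  refine ⟨pm s (mkPt ⟨x, hxA⟩ ⟨y, hyA⟩ hA), ?_, ?_⟩
  · refine exa_move i v s f (fun _ => rfl) (fun a => φ.commutes a) ?_
    rw [hv]
    exact hQ
  · rw [xc_pm, xc_mk]
    have h1 : φ (algebraMap F⟮x⟯ (algebraicClosure F⟮x⟯ ℂ) (AdjoinSimple.gen F x)) = c := by
      rw [← hg, ← hφ]
      rfl
    exact h1

/-- the points `Q` with `β Q` in `E(F)` are algebraic over `F` -/
theorem alg_of_div [DecidableEq ℂ] {F : Type u} [Field F] [NumberField F] [Algebra K F]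
    [DecidableEq F] (f : F →ₐ[K] ℂ) {β : 𝓞 K} (hβ : β ≠ 0) {P : Pt F} {Q : Pt ℂ}
    (hQ : sm ℂ β Q = pm f P) : IsAlgebraic ℚ (xc Q) ∧ IsAlgebraic ℚ (yc Q) := by
  by_cases hQ0 : Q = 0
  · subst hQ0
    rw [xc_zero, yc_zero]
    exact ⟨isAlgebraic_zero, isAlgebraic_zero⟩
  letI := f.toRingHom.toAlgebra
  have hx : IsAlgebraic F (xc Q) := by
    by_contra hx
    have hc : ∀ n : ℕ, Transcendental F (xc Q + n) := by
      intro n hn
      apply hx
      have h1 := hn.sub (isAlgebraic_algebraMap (R := F) (A := ℂ) (n : F))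
      rwa [map_natCast, add_sub_cancel_right] at h1
    choose q hq1 hq2 using fun n : ℕ => exa_conj f hQ hQ0 hx _ (hc n)
    refine Set.infinite_of_injective_forall_mem (f := fun n : ℕ => q n - Q) ?_ ?_
      (exa_fin hβ)
    · intro m n hmn
      have h1 : q m = q n := sub_left_injective hmn
      have h2 := congrArg xc h1
      rw [hq2, hq2] at h2
      exact_mod_cast add_left_cancel h2
    · intro n
      change sm ℂ β (q n - Q) = 0
      rw [map_sub, hq1, hQ, sub_self]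
  have hxq : IsAlgebraic ℚ (xc Q) := hx.restrictScalars ℚ
  obtain ⟨heq, -⟩ := exists_mk hQ0
  exact ⟨hxq, (exa_int hxq.isIntegral heq).isAlgebraic⟩

private theorem exb_aux {F : Type u} [Field F] [NumberField F] [Algebra K F] [DecidableEq F]
    [DecidableEq ℂ] {β : 𝓞 K} (P : Pt F) (f : F →ₐ[K] ℂ) (Q : Pt ℂ) (hQ : sm ℂ β Q = pm f P)
    (T : Type u) [Field T] [Algebra F T] [Module.Finite F T] (g : T →+* ℂ)
    (hg : ∀ a : F, g (algebraMap F T a) = f a) (x y : T) (hx : g x = xc Q) (hy : g y = yc Q) :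
    ∃ (T : Type u) (_ : Field T) (_ : NumberField T) (_ : Algebra K T) (_ : Algebra F T)
      (_ : IsScalarTower K F T) (_ : DecidableEq T), ∃ Q : Pt T, sm T β Q = up T P := by
  let _ : Algebra K T := ((algebraMap F T).comp (algebraMap K F)).toAlgebra
  have hst : IsScalarTower K F T := IsScalarTower.of_algebraMap_eq fun _ => rfl
  have hnf : NumberField T := NumberField.of_module_finite F T
  let _ : DecidableEq T := Classical.decEq T
  let g' : T →ₐ[K] ℂ :=
    { g with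
      commutes' := fun r => by
        show g (algebraMap F T (algebraMap K F r)) = algebraMap K ℂ r
        rw [hg]
        exact f.commutes r }
  have hg' : ∀ a : T, g' a = g a := fun _ => rfl
  have hcomp : ∀ R : Pt F, pm g' (up T R) = pm f R := by
    intro R
    rcases cases_pt R with rfl | ⟨a, b, h, rfl⟩
    · rw [up, map_zero, map_zero, map_zero]
    · obtain ⟨h1, e1⟩ := pm_mk (IsScalarTower.toAlgHom K F T) a b h
      obtain ⟨h2, e2⟩ := pm_mk g' (IsScalarTower.toAlgHom K F T a) (IsScalarTower.toAlgHom K F T b) h1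
      obtain ⟨h3, e3⟩ := pm_mk f a b h
      rw [up, e1, e2, e3, mk_inj]
      exact ⟨hg a, hg b⟩
  have hpt : ∃ Q' : Pt T, pm g' Q' = Q := by
    rcases cases_pt Q with hQ0 | ⟨a, b, h, hab⟩
    · exact ⟨0, by rw [map_zero, hQ0]⟩
    · have hxa : g x = a := by rw [hx, hab, xc_mk]
      have hyb : g y = b := by rw [hy, hab, yc_mk]
      have he : y ^ 2 = x ^ 3 + dD T := by
        apply g.injective
        rw [map_add, map_pow, map_pow, hxa, hyb, map_intCast]
        exact h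
      refine ⟨mkPt x y he, ?_⟩
      obtain ⟨h1, e1⟩ := pm_mk g' x y he
      rw [e1, hab, mk_inj]
      exact ⟨hxa, hyb⟩
  obtain ⟨Q', hQ'⟩ := hpt
  refine ⟨T, inferInstance, hnf, inferInstance, inferInstance, hst, inferInstance, Q', ?_⟩
  apply pm_inj g'
  rw [pm_sm, hQ', hQ, hcomp]

/-- a point of a number field is divisible in an extension -/
theorem exists_div {F : Type u} [Field F] [NumberField F] [Algebra K F] [DecidableEq F]
    {β : 𝓞 K} (hβ : β ≠ 0) (P : Pt F) :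
    ∃ (T : Type u) (_ : Field T) (_ : NumberField T) (_ : Algebra K T) (_ : Algebra F T)
      (_ : IsScalarTower K F T) (_ : DecidableEq T), ∃ Q : Pt T, sm T β Q = up T P := by
  let _ : DecidableEq ℂ := Classical.decEq ℂ
  obtain ⟨f⟩ := exists_emb F
  obtain ⟨u, hus, -, -, -, hu⟩ := exists_uni
  obtain ⟨z, hz⟩ := hus (pm f P)
  have hb : embK (β : K) ≠ 0 := by
    rw [Ne, map_eq_zero]
    exact fun h0 => hβ (RingOfIntegers.coe_eq_zero_iff.1 h0)
  have hQ : sm ℂ β (u (z / embK (β : K))) = pm f P := by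
    rw [← hu, mul_div_cancel₀ _ hb, hz]
  obtain ⟨hx, hy⟩ := alg_of_div f hβ hQ
  generalize u (z / embK (β : K)) = Q at hQ hx hy
  let _ : Algebra F ℂ := f.toRingHom.toAlgebra
  have hst : IsScalarTower ℚ F ℂ := IsScalarTower.of_algebraMap_eq' (Subsingleton.elim _ _)
  have hxi : IsIntegral F (xc Q) := (hx.tower_top F).isIntegral
  have hyi : IsIntegral F (yc Q) := (hy.tower_top F).isIntegral
  have hfin : FiniteDimensional F (IntermediateField.adjoin F ({xc Q, yc Q} : Set ℂ)) := by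
    refine IntermediateField.finiteDimensional_adjoin fun a ha => ?_
    rcases ha with ha | ha
    · rw [ha]
      exact hxi
    · rw [Set.mem_singleton_iff.1 ha]
      exact hyi
  let T₀ := IntermediateField.adjoin F ({xc Q, yc Q} : Set ℂ)
  let j : T₀ →ₐ[F] AlgebraicClosure F := IsAlgClosed.lift
  let e : T₀ ≃ₐ[F] j.fieldRange := AlgEquiv.ofInjectiveField j
  have hfin' : Module.Finite F j.fieldRange := Module.Finite.equiv e.toLinearEquiv
  have hxm : xc Q ∈ T₀ := IntermediateField.subset_adjoin F _ (Set.mem_insert _ _)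
  have hym : yc Q ∈ T₀ := IntermediateField.subset_adjoin F _
    (Set.mem_insert_of_mem _ (Set.mem_singleton _))
  refine exb_aux P f Q hQ j.fieldRange ((algebraMap T₀ ℂ).comp (e.symm : j.fieldRange →+* T₀)) ?_
    (e ⟨xc Q, hxm⟩) (e ⟨yc Q, hym⟩) ?_ ?_
  · intro a
    show algebraMap T₀ ℂ (e.symm (algebraMap F j.fieldRange a)) = f a
    rw [AlgEquiv.commutes]
    rfl
  · show algebraMap T₀ ℂ (e.symm (e ⟨xc Q, hxm⟩)) = xc Q
    rw [AlgEquiv.symm_apply_apply]
    rfl
  · show algebraMap T₀ ℂ (e.symm (e ⟨yc Q, hym⟩)) = yc Q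
    rw [AlgEquiv.symm_apply_apply]
    rfl

private theorem exb_place {ϖ : 𝓞 K} (hp : Prime ϖ) (F : Type u) [Field F] [NumberField F]
    [Algebra K F] : ∃ v : HeightOneSpectrum (𝓞 F),
      v.valuation F (algebraMap K F (ϖ : K)) < 1 := by
  have hint : IsIntegral ℤ (algebraMap K F (ϖ : K)) := (RingOfIntegers.isIntegral_coe ϖ).algebraMap
  let y : 𝓞 F := ⟨algebraMap K F (ϖ : K), hint⟩
  have hy : ((y : 𝓞 F) : F) = algebraMap K F (ϖ : K) := rfl
  have hϖ0 : (ϖ : K) ≠ 0 := fun h0 => hp.ne_zero (RingOfIntegers.coe_eq_zero_iff.1 h0)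
  have hy0 : y ≠ 0 := by
    intro h0
    have h1 : algebraMap K F (ϖ : K) = 0 := by rw [← hy, h0]; rfl
    exact hϖ0 ((map_eq_zero _).1 h1)
  have hnu : y ∈ nonunits (𝓞 F) := by
    intro hu
    obtain ⟨c, hc⟩ := hu.exists_right_inv
    have h1 : algebraMap K F (ϖ : K) * (c : F) = 1 := by
      have h2 := congrArg (fun t : 𝓞 F => (t : F)) hc
      simpa only [map_mul, map_one, hy] using h2
    have h3 : (c : F) = algebraMap K F ((ϖ : K)⁻¹) := by
      rw [map_inv₀]
      exact eq_inv_of_mul_eq_one_right h1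
    have h4 : IsIntegral ℤ (algebraMap K F ((ϖ : K)⁻¹)) := by
      rw [← h3]
      exact RingOfIntegers.isIntegral_coe c
    have h5 : IsIntegral ℤ ((ϖ : K)⁻¹) :=
      (isIntegral_algebraMap_iff (algebraMap K F).injective).1 h4
    let d : 𝓞 K := ⟨(ϖ : K)⁻¹, h5⟩
    have h6 : ϖ * d = 1 := by
      apply RingOfIntegers.coe_injective
      show (ϖ : K) * (ϖ : K)⁻¹ = 1
      exact mul_inv_cancel₀ hϖ0
    exact hp.not_isUnit (IsUnit.of_mul_eq_one d h6)
  obtain ⟨M, hM, hyM⟩ := exists_max_ideal_of_mem_nonunits hnu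
  have hMp := hM.isPrime
  refine ⟨⟨M, hMp, fun h0 => hy0 ?_⟩, ?_⟩
  · rw [h0] at hyM
    exact hyM
  · rw [← hy]
    exact (HeightOneSpectrum.valuation_lt_one_iff_mem _ y).2 hyM

theorem exists_full {ϖ : 𝓞 K} {ℓ q : ℕ} (h : PD ϖ ℓ q) (F : Type u) [Field F] [NumberField F]
    [Algebra K F] (hun : ∀ v : HeightOneSpectrum (𝓞 F), v.valuation F (ℓ : F) < 1 →
      od v (ℓ : F) = 1) :
    ∃ (N : Type u) (_ : Field N) (_ : NumberField N) (_ : Algebra K N) (_ : Algebra F N)
      (_ : IsScalarTower K F N) (_ : DecidableEq N), IsGalois F N ∧ ∃ P : Pt N, Full F ϖ P := by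
  obtain ⟨v, hv⟩ := exb_place h.prime F
  have hv1 : od v (algebraMap K F (ϖ : K)) = 1 :=
    od_of_un h hv (hun v ((pd_val_ell_iff h).2 (Or.inl hv)))
  obtain ⟨N, i1, i2, i3, i4, i5, i6, i7, i8, g1, g2, R, hR, hgen⟩ :=
    exists_ext F F h.prime h.one
  let i9 : DecidableEq N := fun a b => Classical.propDecidable (a = b)
  refine ⟨N, i1, i2, i3, i5, i7, i9, g2, R, hR, hgen, ?_⟩
  exact (ram h.prime h.one hR hgen v hv1 (h.bad_pi hv)).2.2

private theorem exc_fin (F : Type u) [Field F] [NumberField F] (N : Type u) [Field N]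
    [NumberField N] [Algebra F N] : FiniteDimensional F N :=
  FiniteDimensional.right ℚ F N

/-- a common Galois extension -/
private theorem exc_field (F : Type u) [Field F] [NumberField F] (N N₂ T : Type u) [Field N]
    [NumberField N] [Field N₂] [NumberField N₂] [Field T] [NumberField T] [Algebra F N]
    [Algebra F N₂] [Algebra F T] {n : ℕ} (hn : 0 < n) :
    ∃ (L : Type u) (_ : Field L) (_ : NumberField L) (_ : Algebra F L), IsGalois F L ∧
      Nonempty (N →ₐ[F] L) ∧ Nonempty (N₂ →ₐ[F] L) ∧ Nonempty (T →ₐ[F] L) ∧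
      ∃ ζ : L, IsPrimitiveRoot ζ n := by
  have := exc_fin F N
  have := exc_fin F N₂
  have := exc_fin F T
  let Ω := AlgebraicClosure F
  let f : N →ₐ[F] Ω := IsAlgClosed.lift
  let f₂ : N₂ →ₐ[F] Ω := IsAlgClosed.lift
  let f₃ : T →ₐ[F] Ω := IsAlgClosed.lift
  have : NeZero (n : Ω) := ⟨by exact_mod_cast hn.ne'⟩
  obtain ⟨ζ₀, hζ₀⟩ : ∃ z : Ω, (Polynomial.cyclotomic n Ω).IsRoot z := by
    apply IsAlgClosed.exists_root
    rw [Polynomial.degree_cyclotomic]
    exact_mod_cast (Nat.totient_pos.2 hn).ne'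
  rw [Polynomial.isRoot_cyclotomic_iff] at hζ₀
  have h4 : FiniteDimensional F (IntermediateField.adjoin F {ζ₀}) :=
    IntermediateField.adjoin.finiteDimensional (Algebra.IsIntegral.isIntegral ζ₀)
  have h1 : FiniteDimensional F f.fieldRange :=
    LinearMap.finiteDimensional_range f.toLinearMap
  have h2 : FiniteDimensional F f₂.fieldRange :=
    LinearMap.finiteDimensional_range f₂.toLinearMap
  have h3 : FiniteDimensional F f₃.fieldRange :=
    LinearMap.finiteDimensional_range f₃.toLinearMap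
  let M : IntermediateField F Ω :=
    (f.fieldRange ⊔ f₂.fieldRange) ⊔ (f₃.fieldRange ⊔ IntermediateField.adjoin F {ζ₀})
  have hM : FiniteDimensional F M := inferInstance
  let L : IntermediateField F Ω := IntermediateField.normalClosure F M Ω
  have hML : M ≤ L := IntermediateField.le_normalClosure M
  have hL : FiniteDimensional F L := normalClosure.is_finiteDimensional F M Ω
  have hnorm : Normal F L := normalClosure.normal F M Ω
  have hsep : Algebra.IsSeparable F L := inferInstance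
  have : NumberField L := NumberField.of_module_finite F L
  have hN : ∀ x, f x ∈ L := fun x => hML
    ((le_sup_left.trans le_sup_left : f.fieldRange ≤ M) ⟨x, rfl⟩)
  have hN₂ : ∀ x, f₂ x ∈ L := fun x => hML
    ((le_sup_right.trans le_sup_left : f₂.fieldRange ≤ M) ⟨x, rfl⟩)
  have hT : ∀ x, f₃ x ∈ L := fun x => hML
    ((le_sup_left.trans le_sup_right : f₃.fieldRange ≤ M) ⟨x, rfl⟩)
  have hζ : ζ₀ ∈ L := hML
    ((le_sup_right.trans le_sup_right : IntermediateField.adjoin F {ζ₀} ≤ M)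
      (IntermediateField.mem_adjoin_simple_self F ζ₀))
  refine ⟨L, inferInstance, inferInstance, inferInstance, ⟨⟩, ⟨f.codRestrict L.toSubalgebra hN⟩,
    ⟨f₂.codRestrict L.toSubalgebra hN₂⟩, ⟨f₃.codRestrict L.toSubalgebra hT⟩, ⟨ζ₀, hζ⟩, ?_⟩
  exact IsPrimitiveRoot.of_map_of_injective (f := L.val) hζ₀ L.val.injective

private theorem exc_up {F T L : Type u} [Field F] [NumberField F] [Algebra K F] [DecidableEq F]
    [Field T] [NumberField T] [Algebra K T] [DecidableEq T] [Field L] [NumberField L]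
    [Algebra K L] [DecidableEq L] [Algebra F T] [Algebra F L] [Algebra T L]
    [IsScalarTower K F T] [IsScalarTower K F L] [IsScalarTower K T L] [IsScalarTower F T L]
    (P : Pt F) : up L (up T P) = up L P := by
  by_cases h0 : P = 0
  · rw [h0, up_zero, up_zero, up_zero]
  · have h1 : up T P ≠ 0 := by
      intro h
      rw [← up_zero T (N := F), up_inj] at h
      exact h0 h
    have h2 : up L (up T P) ≠ 0 := by
      intro h
      rw [← up_zero L (N := T), up_inj] at h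
      exact h1 h
    have h3 : up L P ≠ 0 := by
      intro h
      rw [← up_zero L (N := F), up_inj] at h
      exact h0 h
    refine pt_ext h2 h3 ?_ ?_
    · rw [xc_up, xc_up, xc_up, ← IsScalarTower.algebraMap_apply]
    · rw [yc_up, yc_up, yc_up, ← IsScalarTower.algebraMap_apply]

section
variable {F N N₂ : Type u} [Field F] [NumberField F] [Algebra K F] [Field N] [NumberField N]
  [Algebra K N] [Field N₂] [NumberField N₂] [Algebra K N₂] [Algebra F N] [Algebra F N₂]
  [IsScalarTower K F N] [IsScalarTower K F N₂] [DecidableEq F] [DecidableEq N] [DecidableEq N₂]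
  [IsGalois F N] [IsGalois F N₂]

theorem exists_L1 {β : 𝓞 K} (hβ : β ≠ 0) {ℓ : ℕ} (hℓ : 0 < ℓ) (P : Pt F) :
    ∃ (L : Type u) (_ : Field L) (_ : NumberField L) (_ : Algebra K L) (_ : Algebra F L)
      (_ : Algebra N L) (_ : Algebra N₂ L) (_ : IsScalarTower K F L) (_ : IsScalarTower K N L)
      (_ : IsScalarTower K N₂ L) (_ : IsScalarTower F N L) (_ : IsScalarTower F N₂ L)
      (_ : DecidableEq L), IsGalois F L ∧ ∃ (ζ : L) (Q : Pt L), IsPrimitiveRoot ζ ℓ ∧
        sm L β Q = up L P := by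
  classical
  obtain ⟨T, iT1, iT2, iT3, iT4, iT5, iT6, Q₀, hQ₀⟩ := exists_div hβ P
  obtain ⟨L, iL1, iL2, iL3, hG, ⟨f⟩, ⟨f₂⟩, ⟨f₃⟩, ζ, hζ⟩ := exc_field F N N₂ T hℓ
  let a1 : Algebra K L := ((algebraMap F L).comp (algebraMap K F)).toAlgebra
  let a2 : Algebra N L := f.toRingHom.toAlgebra
  let a3 : Algebra N₂ L := f₂.toRingHom.toAlgebra
  let a4 : Algebra T L := f₃.toRingHom.toAlgebra
  have t1 : IsScalarTower K F L := IsScalarTower.of_algebraMap_eq fun _ => rfl
  have t2 : IsScalarTower F N L := IsScalarTower.of_algebraMap_eq fun x => (f.commutes x).symm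
  have t3 : IsScalarTower F N₂ L := IsScalarTower.of_algebraMap_eq fun x => (f₂.commutes x).symm
  have t4 : IsScalarTower F T L := IsScalarTower.of_algebraMap_eq fun x => (f₃.commutes x).symm
  have t5 : IsScalarTower K N L := IsScalarTower.of_algebraMap_eq fun x => by
    rw [IsScalarTower.algebraMap_apply K F N, ← IsScalarTower.algebraMap_apply F N L]
    rfl
  have t6 : IsScalarTower K N₂ L := IsScalarTower.of_algebraMap_eq fun x => by
    rw [IsScalarTower.algebraMap_apply K F N₂, ← IsScalarTower.algebraMap_apply F N₂ L]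
    rfl
  have t7 : IsScalarTower K T L := IsScalarTower.of_algebraMap_eq fun x => by
    rw [IsScalarTower.algebraMap_apply K F T, ← IsScalarTower.algebraMap_apply F T L]
    rfl
  refine ⟨L, iL1, iL2, a1, iL3, a2, a3, t1, t5, t6, t2, t3, Classical.decEq L, hG, ζ, up L Q₀, hζ, ?_⟩
  rw [← up_sm, hQ₀, exc_up]

private theorem exD_up_up {A B C : Type u} [Field A] [NumberField A] [Algebra K A] [DecidableEq A]
    [Field B] [NumberField B] [Algebra K B] [DecidableEq B] [Field C] [NumberField C] [Algebra K C]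
    [DecidableEq C] [Algebra A B] [Algebra A C] [Algebra B C] [IsScalarTower K A B]
    [IsScalarTower K A C] [IsScalarTower K B C] (hc : ∀ x : A, algebraMap B C (algebraMap A B x) =
      algebraMap A C x) (P : Pt A) : up C (up B P) = up C P := by
  rcases cases_pt P with rfl | ⟨x, y, h, rfl⟩
  · rw [up_zero, up_zero, up_zero]
  · have h0 : mkPt x y h ≠ 0 := mk_ne_zero x y h
    apply pt_ext
    · intro e
      have e1 : up C (up B (mkPt x y h)) = up C (0 : Pt B) := by rw [e, up_zero]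
      have e2 := (up_inj C).1 e1
      have e3 : up B (mkPt x y h) = up B (0 : Pt A) := by rw [e2, up_zero]
      exact h0 ((up_inj B).1 e3)
    · intro e
      have e1 : up C (mkPt x y h) = up C (0 : Pt A) := by rw [e, up_zero]
      exact h0 ((up_inj C).1 e1)
    · rw [xc_up, xc_up, xc_up, hc]
    · rw [yc_up, yc_up, yc_up, hc]

omit [Algebra F N] [Algebra F N₂] [IsScalarTower K F N] [IsScalarTower K F N₂] [IsGalois F N]
  [IsGalois F N₂] in
private theorem exD_normal {L : Type u} [Field L] [NumberField L] [Algebra K L] [Algebra F L]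
    [Algebra N L] [Algebra N₂ L] [IsScalarTower K F L] [IsScalarTower K N L]
    [IsScalarTower K N₂ L] [DecidableEq L] {ϖ : 𝓞 K} {ℓ q : ℕ} (h : PD ϖ ℓ q) (hl : 0 < ℓ)
    {P₀ : Pt N} (hP₀ : Ord ϖ P₀) {P₂ : Pt N₂} (hP₂ : Ord (cj ϖ) P₂) (P : Pt F) {ζ : L}
    (hζ : IsPrimitiveRoot ζ ℓ) {Q : Pt L} (hQ : sm L (cj ϖ) Q = up L P) :
    ∃ H : Subgroup Gal(L/F), H.Normal ∧ ∀ g : Gal(L/F), g ∈ H ↔
      (ga g (up L P₀) = up L P₀ ∧ ga g (up L P₂) = up L P₂ ∧ ga g Q = Q ∧ g ζ = ζ) := by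
  have hmul : ∀ (g g' : Gal(L/F)) (X : Pt L), ga (g * g') X = ga g (ga g' X) :=
    fun g g' X => ga_mul g g' X
  have hne : ϖ ≠ 0 := h.prime.ne_zero
  have hne2 : cj ϖ ≠ 0 := (pd_cj h).prime.ne_zero
  have key0 : ∀ g : Gal(L/F), ∃ c : 𝓞 K, ga g (up L P₀) = sm L c (up L P₀) := by
    intro g
    obtain ⟨c, _, hc⟩ := gal_sm hne ((ord_up L).2 hP₀) g
    exact ⟨c, hc⟩
  have key2 : ∀ g : Gal(L/F), ∃ c : 𝓞 K, ga g (up L P₂) = sm L c (up L P₂) := by
    intro g
    obtain ⟨c, _, hc⟩ := gal_sm hne2 ((ord_up L).2 hP₂) g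
    exact ⟨c, hc⟩
  have keyQ : ∀ g : Gal(L/F), ∃ c : 𝓞 K, ga g Q = Q + sm L c (up L P₂) := by
    intro g
    obtain ⟨f⟩ := exists_emb L
    have h1 : sm L (cj ϖ) (ga g Q - Q) = 0 := by
      have e1 : sm L (cj ϖ) (ga g Q) = ga g (sm L (cj ϖ) Q) := (ga_sm g (cj ϖ) Q).symm
      have e2 : ga g (up L P) = up L P := ga_up_self L g P
      rw [map_sub, e1, hQ, e2, sub_self]
    obtain ⟨c, hc⟩ := ord_cases f hne2 ((ord_up L).2 hP₂) h1
    refine ⟨c, ?_⟩
    rw [← hc]
    abel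
  have keyz : ∀ g : Gal(L/F), ∃ j : ℕ, g ζ = ζ ^ j := by
    intro g
    have : NeZero ℓ := ⟨hl.ne'⟩
    have h1 : (g ζ) ^ ℓ = 1 := by rw [← map_pow, hζ.pow_eq_one, map_one]
    obtain ⟨i, _, hi⟩ := hζ.eq_pow_of_pow_eq_one h1
    exact ⟨i, hi.symm⟩
  refine ⟨{ carrier := {g | ga g (up L P₀) = up L P₀ ∧ ga g (up L P₂) = up L P₂ ∧ ga g Q = Q ∧
              g ζ = ζ}
            mul_mem' := ?_
            one_mem' := ?_
            inv_mem' := ?_ }, ?_, ?_⟩
  · rintro a b ⟨a1, a2, a3, a4⟩ ⟨b1, b2, b3, b4⟩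
    refine ⟨?_, ?_, ?_, ?_⟩
    · rw [hmul, b1, a1]
    · rw [hmul, b2, a2]
    · rw [hmul, b3, a3]
    · rw [AlgEquiv.mul_apply, b4, a4]
  · exact ⟨ga_one _, ga_one _, ga_one _, rfl⟩
  · rintro a ⟨a1, a2, a3, a4⟩
    have hinv : ∀ X : Pt L, ga a X = X → ga a⁻¹ X = X := by
      intro X hX
      have e1 : ga a⁻¹ (ga a X) = X := by
        rw [← hmul, inv_mul_cancel]
        exact ga_one _
      rw [hX] at e1
      exact e1
    refine ⟨hinv _ a1, hinv _ a2, hinv _ a3, ?_⟩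
    have e1 : a⁻¹ (a ζ) = ζ := by
      rw [← AlgEquiv.mul_apply, inv_mul_cancel]
      rfl
    rw [a4] at e1
    exact e1
  · constructor
    rintro n ⟨n1, n2, n3, n4⟩ g
    have hX : ∀ X : Pt L, ga n (ga g⁻¹ X) = ga g⁻¹ X → ga (g * n * g⁻¹) X = X := by
      intro X hX
      rw [hmul, hmul, hX, ← hmul, mul_inv_cancel]
      exact ga_one _
    refine ⟨hX _ ?_, hX _ ?_, hX _ ?_, ?_⟩
    · obtain ⟨c, hc⟩ := key0 g⁻¹
      rw [hc, ga_sm, n1]
    · obtain ⟨c, hc⟩ := key2 g⁻¹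
      rw [hc, ga_sm, n2]
    · obtain ⟨c, hc⟩ := keyQ g⁻¹
      rw [hc, map_add, ga_sm, n3, n2]
    · obtain ⟨j, hj⟩ := keyz g⁻¹
      rw [AlgEquiv.mul_apply, AlgEquiv.mul_apply, hj, map_pow, n4, ← hj, ← AlgEquiv.mul_apply,
        mul_inv_cancel]
      rfl
  · intro g
    exact Iff.rfl

theorem exists_TD {ϖ : 𝓞 K} {ℓ q : ℕ} (h : PD ϖ ℓ q) {P₀ : Pt N} (hP₀ : Full F ϖ P₀)
    {P₂ : Pt N₂} (hP₂ : Full F (cj ϖ) P₂) (P : Pt F) :
    ∃ (L : Type u) (_ : Field L) (_ : NumberField L) (_ : Algebra K L) (_ : Algebra F L)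
      (_ : Algebra N L) (_ : Algebra N₂ L) (_ : IsScalarTower K F L) (_ : IsScalarTower K N L)
      (_ : IsScalarTower K N₂ L) (_ : IsScalarTower F N L) (_ : IsScalarTower F N₂ L)
      (_ : DecidableEq L) (_ : IsGalois F L) (ζ : L) (Q : Pt L), TD ϖ ℓ q P P₀ P₂ ζ Q := by
  obtain ⟨L1, _, _, _, _, _, _, _, _, _, _, _, _, hgal, ζ1, Q1, hζ, hQ⟩ :=
    exists_L1 (F := F) (N := N) (N₂ := N₂) (pd_cj h).prime.ne_zero h.hl.pos P
  obtain ⟨H, hnorm, hH⟩ := exD_normal (N := N) (N₂ := N₂) h h.hl.pos hP₀.ord hP₂.ord P hζ hQ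
  have hfix : ∀ g : Gal(L1/F), g ∈ H → ∀ x : N, g (algebraMap N L1 x) = algebraMap N L1 x := by
    intro g hg x
    have h1 : ga g (up L1 P₀) = up L1 P₀ := ((hH g).1 hg).1
    rw [ga_up, up_inj] at h1
    have h2 := hP₀.gen _ h1
    rw [← rs_apply, h2]
    rfl
  have hfix₂ : ∀ g : Gal(L1/F), g ∈ H → ∀ x : N₂,
      g (algebraMap N₂ L1 x) = algebraMap N₂ L1 x := by
    intro g hg x
    have h1 : ga g (up L1 P₂) = up L1 P₂ := ((hH g).1 hg).2.1
    rw [ga_up, up_inj] at h1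
    have h2 := hP₂.gen _ h1
    rw [← rs_apply, h2]
    rfl
  have hmemfix : ∀ x : L1, x ∈ IntermediateField.fixedField H ↔ ∀ g ∈ H, g x = x := by
    intro x
    exact IntermediateField.mem_fixedField_iff H x
  let L : IntermediateField F L1 := IntermediateField.fixedField H
  have hfs : L.fixingSubgroup = H := IntermediateField.fixingSubgroup_fixedField H
  have hLF : IsGalois F L := IsGalois.of_fixedField_normal_subgroup H
  have hL1 : IsGalois L L1 := inferInstance
  let iN : N →+* L := (algebraMap N L1).codRestrict L.toSubfield.toSubring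
    (fun x => (hmemfix _).2 fun g hg => hfix g hg x)
  let iN₂ : N₂ →+* L := (algebraMap N₂ L1).codRestrict L.toSubfield.toSubring
    (fun x => (hmemfix _).2 fun g hg => hfix₂ g hg x)
  let aN : Algebra N L := iN.toAlgebra
  let aN₂ : Algebra N₂ L := iN₂.toAlgebra
  have cN : ∀ x : N, algebraMap L L1 (algebraMap N L x) = algebraMap N L1 x := fun x => rfl
  have cN₂ : ∀ x : N₂, algebraMap L L1 (algebraMap N₂ L x) = algebraMap N₂ L1 x := fun x => rfl
  have cF : ∀ x : F, algebraMap L L1 (algebraMap F L x) = algebraMap F L1 x := fun x => rfl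
  have cK : ∀ x : K, algebraMap L L1 (algebraMap K L x) = algebraMap K L1 x := fun x => by
    rw [IsScalarTower.algebraMap_apply K F L, cF, ← IsScalarTower.algebraMap_apply K F L1]
  have inj : Function.Injective (algebraMap L L1) := (algebraMap L L1).injective
  have tKN : IsScalarTower K N L := IsScalarTower.of_algebraMap_eq fun x => inj (by
    rw [cN, cK, ← IsScalarTower.algebraMap_apply K N L1])
  have tKN₂ : IsScalarTower K N₂ L := IsScalarTower.of_algebraMap_eq fun x => inj (by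
    rw [cN₂, cK, ← IsScalarTower.algebraMap_apply K N₂ L1])
  have tFN : IsScalarTower F N L := IsScalarTower.of_algebraMap_eq fun x => inj (by
    rw [cN, cF, ← IsScalarTower.algebraMap_apply F N L1])
  have tFN₂ : IsScalarTower F N₂ L := IsScalarTower.of_algebraMap_eq fun x => inj (by
    rw [cN₂, cF, ← IsScalarTower.algebraMap_apply F N₂ L1])
  have tKL : IsScalarTower K L L1 := IsScalarTower.of_algebraMap_eq fun x => (cK x).symm
  have tFL : IsScalarTower F L L1 := IsScalarTower.of_algebraMap_eq fun x => (cF x).symm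
  have memH : ∀ σ : Gal(L1/L), toF F σ ∈ H := by
    intro σ
    rw [← hfs, IntermediateField.mem_fixingSubgroup_iff]
    intro x hx
    rw [toF_apply]
    exact σ.commutes ⟨x, hx⟩
  obtain ⟨Q, hQ'⟩ : ∃ Q : Pt L, up L1 Q = Q1 := desc_pt (fun σ => by
    rw [← ga_toF (F := F)]
    exact ((hH _).1 (memH σ)).2.2.1)
  obtain ⟨ζ, hζ'⟩ : ∃ ζ : L, algebraMap L L1 ζ = ζ1 := mem_of_fixed (F := L) (fun σ => by
    have := ((hH _).1 (memH σ)).2.2.2
    rwa [toF_apply] at this)
  refine ⟨L, inferInstance, inferInstance, inferInstance, inferInstance, aN, aN₂, inferInstance,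
    tKN, tKN₂, tFN, tFN₂, inferInstance, hLF, ζ, Q, ?_⟩
  refine ⟨h, hP₀, hP₂, ?_, ?_, ?_⟩
  · rw [← hζ'] at hζ
    exact hζ.of_map_of_injective inj
  · rw [← up_inj L1, up_sm, hQ', hQ, exD_up_up cF]
  · intro σ h1 h2 h3 h4
    obtain ⟨g, hg⟩ := exists_lift (L := L1) σ
    have hgH : g ∈ H := by
      rw [hH]
      refine ⟨?_, ?_, ?_, ?_⟩
      · rw [← exD_up_up cN, ga_up, hg, h1]
      · rw [← exD_up_up cN₂, ga_up, hg, h2]
      · rw [← hQ', ga_up, hg, h3]
      · rw [← hζ', ← rs_apply, hg, h4]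
    rw [← hg]
    refine AlgEquiv.ext fun x => inj ?_
    rw [rs_apply]
    exact (hmemfix _).1 x.2 g hgH

end

end Pool.Agent.Lib.MP_1a91b9_ntX.DX
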