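import Pool.Agent.Lib.MP_1a91b9_ntX.DX.Cj

/-!
# The norm of the Hecke character
-/

set_option autoImplicit false

namespace Pool.Agent.Lib.MP_1a91b9_ntX.DX

open NumberField IsDedekindDomain WeierstrassCurve Pool.Agent.Lib.MP_1a91b9_ntT
open Pool.Agent.Lib.MP_1a91b9_ntX.DB

universe u

variable [DD] [HC]

section
variable {F : Type u} [Field F] [NumberField F] [Algebra K F]

/-- `6 D` is not in the ideal of a place where it is a unit -/
theorem bad_notMem (v : HeightOneSpectrum (𝓞 F)) (hb : v.valuation F (bD F) = 1) :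
    ((6 * DD.D : ℤ) : 𝓞 F) ∉ v.asIdeal := by
  intro h
  have h1 : v.valuation F (algebraMap (𝓞 F) F ((6 * DD.D : ℤ) : 𝓞 F)) < 1 :=
    (v.valuation_lt_one_iff_mem (K := F) _).2 h
  rw [map_intCast] at h1
  exact absurd hb h1.ne

theorem bad_notMem_under (v : HeightOneSpectrum (𝓞 F)) (hb : v.valuation F (bD F) = 1) :
    ((6 * DD.D : ℤ) : 𝓞 K) ∉ (v.under (𝓞 K)).asIdeal := by
  intro h
  apply bad_notMem v hb
  have h1 : algebraMap (𝓞 K) (𝓞 F) ((6 * DD.D : ℤ) : 𝓞 K) ∈ v.asIdeal := h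
  rwa [map_intCast] at h1

/-- the value of the character generates the relative norm -/
theorem psi_span (v : HeightOneSpectrum (𝓞 F)) (hb : v.valuation F (bD F) = 1) :
    Ideal.span {psi F v.asIdeal} = Ideal.relNorm (𝓞 K) v.asIdeal := by
  have h0 : (v.under (𝓞 K)).asIdeal.IsMaximal := (v.under (𝓞 K)).isMaximal
  have h1 : v.asIdeal.LiesOver (v.under (𝓞 K)).asIdeal := ⟨rfl⟩
  have hrel : Ideal.relNorm (𝓞 K) v.asIdeal =
      (v.under (𝓞 K)).asIdeal ^ v.asIdeal.inertiaDeg (𝓞 K) :=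
    Ideal.relNorm_eq_pow_of_isMaximal v.asIdeal (v.under (𝓞 K)).asIdeal
  rw [psi_pow, ← Ideal.span_singleton_pow, ps_span _ (bad_notMem_under v hb), hrel]

theorem psi_absNorm (v : HeightOneSpectrum (𝓞 F)) (hb : v.valuation F (bD F) = 1) :
    Ideal.absNorm (Ideal.span {psi F v.asIdeal}) = Ideal.absNorm v.asIdeal := by
  rw [psi_span v hb, Ideal.absNorm_relNorm]

theorem psi_mul_cj (v : HeightOneSpectrum (𝓞 F)) (hb : v.valuation F (bD F) = 1) :
    psi F v.asIdeal * cj (psi F v.asIdeal) = ((Ideal.absNorm v.asIdeal : ℕ) : 𝓞 K) := by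
  rw [mul_cj, psi_absNorm v hb]

end

end Pool.Agent.Lib.MP_1a91b9_ntX.DX
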