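import Pool.Agent.Lib.MP_1a91b9_ntX.DX.SatA

/-!
# DX: the local parameter of a difference, saturation of the kernel of reduction

Port of MP_1a91b9_ntT/DX/Sat.lean to the curves `y² = x³ + D`.
-/

set_option autoImplicit false

namespace Pool.Agent.Lib.MP_1a91b9_ntX.DX

open NumberField IsDedekindDomain WeierstrassCurve Pool.Agent.Lib.MP_1a91b9_ntT
open Pool.Agent.Lib.MP_1a91b9_ntX.DB

universe u

variable [DD]

section
variable {F : Type u} [Field F] [NumberField F] [Algebra K F] [DecidableEq F]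

omit [Algebra K F] [DecidableEq F] in
private theorem sab_exists_over (N : Type u) [Field N] [NumberField N] [Algebra F N]
    (v : HeightOneSpectrum (𝓞 F)) : ∃ W : HeightOneSpectrum (𝓞 N), W.under (𝓞 F) = v := by
  obtain ⟨P, hPm, hP⟩ := Ideal.exists_maximal_ideal_liesOver_of_isIntegral (S := 𝓞 N) v.asIdeal
  refine ⟨⟨P, hPm.isPrime, ?_⟩, ?_⟩
  · intro hb
    apply v.ne_bot
    rw [hP.over, hb]
    exact Ideal.comap_bot_of_injective _ (FaithfulSMul.algebraMap_injective (𝓞 F) (𝓞 N))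
  · apply HeightOneSpectrum.ext
    exact hP.over.symm

theorem ker_sat {β : 𝓞 K} (hβ : Prime β) (hβ1 : (3 : 𝓞 K) ∣ β - 1)
    (v : HeightOneSpectrum (𝓞 F)) (hv : v.valuation F (algebraMap K F (β : K)) < 1)
    (hb : v.valuation F (bD F) = 1) {Q : Pt F}
    (hQ : Ker (v.valuation F) (sm F β Q)) : Ker (v.valuation F) Q := by
  classical
  obtain ⟨L, _, _, _, _, _, _, _, _, _, _, R, hR, _⟩ := exists_ext F F hβ hβ1
  obtain ⟨W, rfl⟩ := sab_exists_over L v
  rw [← ker_up L W] at hQ ⊢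
  rw [up_sm] at hQ
  refine ker_of_sm (W.valuation L) hβ hβ1 hR ?_ ?_ hQ
  · rw [IsScalarTower.algebraMap_apply K F L, val_map_lt]
    exact hv
  · have e : bD L = algebraMap F L (bD F) := (map_intCast _ _).symm
    rw [e, val_map_eq]
    exact hb

end

section
variable {F : Type u} [Field F] [NumberField F] [Algebra K F] [DecidableEq F]

theorem exists_nsmul_ker (v : HeightOneSpectrum (𝓞 F)) (h3 : v.valuation F (bD F) = 1)
    (P : Pt F) : ∃ n : ℕ, 0 < n ∧ Ker (v.valuation F) (n • P) := by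
  by_contra hcon
  push Not at hcon
  have hfin : Finite (𝓞 F ⧸ v.asIdeal) := Ideal.finiteQuotientOfFreeOfNeBot _ v.ne_bot
  have hexp : WithZero.exp (-((1 : ℕ) : ℤ)) < (1 : WithZero (Multiplicative ℤ)) := by
    rw [← WithZero.exp_zero, WithZero.exp_lt_exp]
    norm_num
  have hX : ∀ n : ℕ, ∃ x : 𝓞 F, v.valuation F (xc ((n + 1) • P) - (x : F)) < 1 := by
    intro n
    obtain ⟨x, hx⟩ := exists_val_lt_of_int v (not_ker _ (hcon (n + 1) n.succ_pos)).2.1 1
    exact ⟨x, lt_of_le_of_lt hx hexp⟩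
  have hY : ∀ n : ℕ, ∃ x : 𝓞 F, v.valuation F (yc ((n + 1) • P) - (x : F)) < 1 := by
    intro n
    obtain ⟨x, hx⟩ := exists_val_lt_of_int v (not_ker _ (hcon (n + 1) n.succ_pos)).2.2 1
    exact ⟨x, lt_of_le_of_lt hx hexp⟩
  choose X hX using hX
  choose Y hY using hY
  obtain ⟨i, j, hij, he⟩ := Finite.exists_ne_map_eq_of_infinite
    (fun n : ℕ => (Ideal.Quotient.mk v.asIdeal (X n), Ideal.Quotient.mk v.asIdeal (Y n)))
  have key : ∀ i j : ℕ, i < j → Ideal.Quotient.mk v.asIdeal (X i) =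
      Ideal.Quotient.mk v.asIdeal (X j) → Ideal.Quotient.mk v.asIdeal (Y i) =
      Ideal.Quotient.mk v.asIdeal (Y j) → False := by
    intro i j hij h1 h2
    have h1' : v.valuation F ((X i : F) - (X j : F)) < 1 := by
      have := (v.valuation_lt_one_iff_mem (K := F) (X i - X j)).2 (Ideal.Quotient.eq.1 h1)
      simpa using this
    have h2' : v.valuation F ((Y i : F) - (Y j : F)) < 1 := by
      have := (v.valuation_lt_one_iff_mem (K := F) (Y i - Y j)).2 (Ideal.Quotient.eq.1 h2)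
      simpa using this
    have h4 : v.valuation F (xc ((i + 1) • P) - xc ((j + 1) • P)) < 1 := by
      have e : xc ((i + 1) • P) - xc ((j + 1) • P) = (xc ((i + 1) • P) - (X i : F)) +
          ((X i : F) - (X j : F)) - (xc ((j + 1) • P) - (X j : F)) := by ring
      rw [e]
      exact (v.valuation F).map_sub_lt ((v.valuation F).map_add_lt (hX i) h1') (hX j)
    have h5 : v.valuation F (yc ((i + 1) • P) - yc ((j + 1) • P)) < 1 := by
      have e : yc ((i + 1) • P) - yc ((j + 1) • P) = (yc ((i + 1) • P) - (Y i : F)) +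
          ((Y i : F) - (Y j : F)) - (yc ((j + 1) • P) - (Y j : F)) := by ring
      rw [e]
      exact (v.valuation F).map_sub_lt ((v.valuation F).map_add_lt (hY i) h2') (hY j)
    have h6 := red_inj (v.valuation F) h3 (hcon (i + 1) i.succ_pos) (hcon (j + 1) j.succ_pos) h4 h5
    have h7 := ker_neg _ h6
    have h8 : -((i + 1) • P - (j + 1) • P) = (j - i) • P := by
      obtain ⟨d, rfl⟩ := Nat.exists_eq_add_of_lt hij
      have e2 : i + d + 1 + 1 = (d + 1) + (i + 1) := by ring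
      have e3 : i + d + 1 - i = d + 1 := by omega
      rw [e3, neg_sub, sub_eq_iff_eq_add, e2, add_nsmul]
    rw [h8] at h7
    exact hcon (j - i) (Nat.sub_pos_of_lt hij) h7
  have he1 := congrArg Prod.fst he
  have he2 := congrArg Prod.snd he
  rcases lt_or_gt_of_ne hij with h | h
  · exact key i j h he1 he2
  · exact key j i h he1.symm he2.symm

private theorem sac_place {ϖ : 𝓞 K} {ℓ q : ℕ} (h : PD ϖ ℓ q) (hi : cj ϖ = ϖ) (P : Pt F)
    (v : HeightOneSpectrum (𝓞 F)) (hv : v.valuation F (algebraMap K F (ϖ : K)) < 1) :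
    ∃ n : ℕ, n.Coprime ℓ ∧ Ker (v.valuation F) (n • P) := by
  classical
  have hex := exists_nsmul_ker v (h.bad_pi hv) P
  obtain ⟨hn0, hnK⟩ := Nat.find_spec hex
  refine ⟨Nat.find hex, ?_, hnK⟩
  rw [Nat.coprime_comm, h.hl.coprime_iff_not_dvd]
  rintro ⟨m, hm⟩
  have hq : q = ℓ ^ 2 := by
    rcases pd_cases h with ⟨_, hc⟩ | ⟨hq, _⟩
    · rw [hi] at hc
      exact absurd (isCoprime_self.1 hc) h.prime.not_isUnit
    · exact hq
  have hsq : (ϖ - (ℓ : 𝓞 K)) * (ϖ + (ℓ : 𝓞 K)) = 0 := by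
    have e := pd_mul_cj h
    rw [hi, hq] at e
    push_cast at e
    linear_combination e
  have hm0 : 0 < m := by
    rcases Nat.eq_zero_or_pos m with h0 | h0
    · rw [h0, mul_zero] at hm
      omega
    · exact h0
  have hl1 : 1 < ℓ := h.hl.one_lt
  have hmn : m < Nat.find hex := by
    rw [hm]
    exact lt_mul_of_one_lt_left hm0 hl1
  refine Nat.find_min hex hmn ⟨hm0, ?_⟩
  apply ker_sat h.prime h.one v hv (h.bad_pi hv)
  rw [hm, mul_nsmul', ← sm_nat] at hnK
  rcases mul_eq_zero.1 hsq with h1 | h1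
  · rw [sub_eq_zero.1 h1]
    exact hnK
  · rw [eq_neg_of_add_eq_zero_left h1, map_neg]
    exact ker_neg _ hnK

/-- inert case: a multiple prime to `ℓ` lies in all the kernels of reduction above `ℓ` -/
theorem exists_coprime_ker {ϖ : 𝓞 K} {ℓ q : ℕ} (h : PD ϖ ℓ q) (hi : cj ϖ = ϖ) (P : Pt F) :
    ∃ n : ℕ, n.Coprime ℓ ∧ ∀ v : HeightOneSpectrum (𝓞 F),
      v.valuation F (algebraMap K F (ϖ : K)) < 1 → Ker (v.valuation F) (n • P) := by
  classical
  have h0 : algebraMap K F (ϖ : K) ≠ 0 := by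
    rw [Ne, map_eq_zero]
    exact fun e => h.prime.ne_zero (RingOfIntegers.ext e)
  have hf := od_finite (F := F) h0
  have hpl : ∀ v : HeightOneSpectrum (𝓞 F), ∃ n : ℕ, n.Coprime ℓ ∧
      (v.valuation F (algebraMap K F (ϖ : K)) < 1 → Ker (v.valuation F) (n • P)) := by
    intro v
    by_cases hv : v.valuation F (algebraMap K F (ϖ : K)) < 1
    · obtain ⟨n, h1, h2⟩ := sac_place h hi P v hv
      exact ⟨n, h1, fun _ => h2⟩
    · exact ⟨1, Nat.coprime_one_left _, fun hv' => absurd hv' hv⟩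
  choose N hN1 hN2 using hpl
  refine ⟨∏ v ∈ hf.toFinset, N v, Nat.Coprime.prod_left fun v _ => hN1 v, ?_⟩
  intro v hv
  have hmem : v ∈ hf.toFinset := by
    rw [Set.Finite.mem_toFinset, Set.mem_ofPred_eq]
    exact ((val_lt_one_iff v h0).1 hv).ne'
  obtain ⟨m, hm⟩ := Finset.dvd_prod_of_mem N hmem
  rw [hm, mul_comm, mul_nsmul']
  exact (ker_nsmul _ (hN2 v hv) m).1

end

end Pool.Agent.Lib.MP_1a91b9_ntX.DX
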