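import Pool.Agent.Lib.MP_1a91b9_ntX.DX.Unr
import Pool.Agent.Lib.MP_1a91b9_ntX.DX.Sat

/-!
# DX: inert case, local condition at the places above `ϖ`

Port of MP_1a91b9_ntT/DX/Lev.lean to the curves `y² = x³ + D`.
-/

set_option autoImplicit false

namespace Pool.Agent.Lib.MP_1a91b9_ntX.DX

open NumberField IsDedekindDomain WeierstrassCurve Pool.Agent.Lib.MP_1a91b9_ntT
open Pool.Agent.Lib.MP_1a91b9_ntX.DB

universe u

variable [DD] [HC]

section
variable {N : Type u} [Field N] [NumberField N]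

/-- a unit at a place of residue characteristic `ℓ` is an `ℓ`-th power modulo the place -/
private theorem lva_root {ℓ : ℕ} (hl : ℓ.Prime)
    (w : HeightOneSpectrum (𝓞 N)) (hw : w.valuation N (ℓ : N) < 1) {u : N}
    (hu : w.valuation N u ≤ 1) : ∃ s : N, w.valuation N (u - s ^ ℓ) < 1 := by
  obtain ⟨x, hx⟩ := exists_val_lt_of_int w hu 1
  have hx1 : w.valuation N (u - (x : N)) < 1 := by
    refine lt_of_le_of_lt hx ?_
    rw [← WithZero.exp_zero, WithZero.exp_lt_exp]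
    norm_num
  have hm : w.asIdeal.IsMaximal := w.isMaximal
  let _ : Field (𝓞 N ⧸ w.asIdeal) := Ideal.Quotient.field w.asIdeal
  have : Finite (𝓞 N ⧸ w.asIdeal) := Ring.HasFiniteQuotients.finiteQuotient w.ne_bot
  have : Fact ℓ.Prime := ⟨hl⟩
  have hmem : (ℓ : 𝓞 N) ∈ w.asIdeal := by
    rw [← w.valuation_lt_one_iff_mem (K := N)]
    change w.valuation N (algebraMap (𝓞 N) N (ℓ : 𝓞 N)) < 1
    rw [map_natCast]
    exact hw
  have : CharP (𝓞 N ⧸ w.asIdeal) ℓ := by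
    have h0 : Ideal.Quotient.mk w.asIdeal (ℓ : 𝓞 N) = 0 := Ideal.Quotient.eq_zero_iff_mem.2 hmem
    rw [map_natCast] at h0
    exact (CharP.charP_iff_prime_eq_zero hl).2 h0
  have hsurj : Function.Surjective (frobenius (𝓞 N ⧸ w.asIdeal) ℓ) :=
    Finite.injective_iff_surjective.1 (frobenius_inj _ ℓ)
  obtain ⟨r, hr⟩ := hsurj (Ideal.Quotient.mk w.asIdeal x)
  obtain ⟨s, rfl⟩ := Ideal.Quotient.mk_surjective r
  rw [frobenius_def, ← map_pow, Ideal.Quotient.eq] at hr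
  refine ⟨(s : N), ?_⟩
  have h1 : w.valuation N (((s ^ ℓ - x : 𝓞 N)) : N) < 1 :=
    (w.valuation_lt_one_iff_mem (K := N) _).2 hr
  have e : u - (s : N) ^ ℓ = (u - (x : N)) - (((s ^ ℓ - x : 𝓞 N)) : N) := by
    push_cast
    ring
  rw [e]
  exact Valuation.map_sub_lt _ hx1 h1

/-- the value of an element close to a unit -/
private theorem lva_one {F : Type*} [Field F] {Γ : Type*} [LinearOrderedCommGroupWithZero Γ]
    (v : Valuation F Γ) {x y : F} (hx : v x = 1) (h : v (x - y) < 1) : v y = 1 := by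
  have h1 := Valuation.map_sub_eq_of_lt_right v (x := x - y) (y := x) (by rwa [hx])
  rw [sub_sub_cancel_left, Valuation.map_neg] at h1
  rw [h1, hx]

private theorem lva_pow {F : Type*} [Field F] {Γ : Type*} [LinearOrderedCommGroupWithZero Γ]
    (v : Valuation F Γ) {x : F} {n : ℕ} (hn : n ≠ 0) (hx : v (x ^ n) = 1) : v x = 1 := by
  rw [map_pow] at hx
  exact (pow_eq_one_iff_of_nonneg zero_le hn).1 hx

theorem exists_level {ℓ : ℕ} (hℓ : ℓ.Prime) {w : HeightOneSpectrum (𝓞 N)}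
    (hw : w.valuation N (ℓ : N) < 1) {y : N} (hy : y ≠ 0) (hd : (ℓ : ℤ) ∣ od w y)
    (hn : ¬ WLoc ℓ w y) : ∃ b : N, b ≠ 0 ∧
      w.valuation N (y * b ^ ℓ - 1) = WithZero.exp (-1 : ℤ) := by
  obtain ⟨j, hj⟩ := hd
  obtain ⟨b0, hb0⟩ := exists_od_one w
  have hb00 : b0 ≠ 0 := by
    rintro rfl
    rw [od, map_zero, WithZero.log_zero, neg_zero] at hb0
    exact absurd hb0 (by norm_num)
  have hb : b0 ^ (-j) ≠ 0 := zpow_ne_zero _ hb00
  have hu0 : y * (b0 ^ (-j)) ^ ℓ ≠ 0 := mul_ne_zero hy (pow_ne_zero _ hb)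
  have hu : w.valuation N (y * (b0 ^ (-j)) ^ ℓ) = 1 := by
    rw [val_eq_one_iff w hu0, od_mul w hy (pow_ne_zero _ hb), od_pow, od_zpow, hb0, hj]
    ring
  obtain ⟨s, hs⟩ := lva_root hℓ w hw hu.le
  have hs1 : w.valuation N (s ^ ℓ) = 1 := lva_one _ hu hs
  have hs2 : w.valuation N s = 1 := lva_pow _ hℓ.ne_zero hs1
  have hs0 : s ≠ 0 := by
    rintro rfl
    rw [map_zero] at hs2
    exact zero_ne_one hs2
  have hlt : WithZero.exp (-2 : ℤ) < w.valuation N (y * (b0 ^ (-j)) ^ ℓ - s ^ ℓ) := by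
    by_contra hc
    exact hn ⟨b0 ^ (-j), s, hu, not_lt.1 hc⟩
  have hd0 : y * (b0 ^ (-j)) ^ ℓ - s ^ ℓ ≠ 0 := by
    intro h0
    rw [h0, map_zero] at hlt
    exact absurd hlt (not_lt.2 zero_le)
  have h1 : w.valuation N (y * (b0 ^ (-j)) ^ ℓ - s ^ ℓ) = WithZero.exp (-1 : ℤ) := by
    rw [val_eq w hd0] at hlt ⊢
    have h2 : 0 < od w (y * (b0 ^ (-j)) ^ ℓ - s ^ ℓ) := (val_lt_one_iff w hd0).1 hs
    rw [WithZero.exp_lt_exp] at hlt
    congr 1
    omega
  refine ⟨b0 ^ (-j) / s, div_ne_zero hb hs0, ?_⟩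
  have e : y * (b0 ^ (-j) / s) ^ ℓ - 1 = (y * (b0 ^ (-j)) ^ ℓ - s ^ ℓ) / s ^ ℓ := by
    rw [div_pow]
    have h3 : s ^ ℓ ≠ 0 := pow_ne_zero _ hs0
    field_simp
  rw [e, map_div₀, hs1, div_one, h1]

/-- `1 - ζ ^ j` is a multiple of `1 - ζ` -/
private theorem lva_le {ζ' : N} {w : HeightOneSpectrum (𝓞 N)} (h1 : w.valuation N ζ' ≤ 1)
    (j : ℕ) : w.valuation N (1 - ζ' ^ j) ≤ w.valuation N (1 - ζ') := by
  have e : 1 - ζ' ^ j = (1 - ζ') * ∑ i ∈ Finset.range j, ζ' ^ i := by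
    rw [mul_neg_geom_sum]
  rw [e, map_mul]
  refine mul_le_of_le_one_right' ?_
  refine Valuation.map_sum_le _ fun i _ => ?_
  rw [map_pow]
  exact pow_le_one' h1 i

private theorem lva_eq {ℓ : ℕ} (hℓ : ℓ.Prime) {ζ' : N} (hζ : IsPrimitiveRoot ζ' ℓ)
    (w : HeightOneSpectrum (𝓞 N)) {j : ℕ} (hj : ¬ ℓ ∣ j) :
    w.valuation N (1 - ζ' ^ j) = w.valuation N (1 - ζ') := by
  have h0 : w.valuation N (ζ' ^ ℓ) = 1 := by rw [hζ.pow_eq_one, map_one]
  have h1 : w.valuation N ζ' = 1 := lva_pow _ hℓ.ne_zero h0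
  refine le_antisymm (lva_le h1.le j) ?_
  have hc : Nat.Coprime j ℓ := ((Nat.Prime.coprime_iff_not_dvd hℓ).2 hj).symm
  have h2 : IsPrimitiveRoot (ζ' ^ j) ℓ := hζ.pow_of_coprime j hc
  have : NeZero ℓ := ⟨hℓ.ne_zero⟩
  obtain ⟨i, -, hi⟩ := h2.eq_pow_of_pow_eq_one hζ.pow_eq_one
  have h3 : w.valuation N (ζ' ^ j) ≤ 1 := by rw [map_pow, h1, one_pow]
  have h4 := lva_le h3 i
  rwa [hi] at h4

theorem one_sub_zeta {ℓ : ℕ} (hℓ : ℓ.Prime) {ζ' : N} (hζ : IsPrimitiveRoot ζ' ℓ)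
    {w : HeightOneSpectrum (𝓞 N)} (hw : od w (ℓ : N) = (ℓ : ℤ) ^ 2 - 1) {j : ℕ}
    (hj : ¬ ℓ ∣ j) : od w (1 - ζ' ^ j) = (ℓ : ℤ) + 1 := by
  have hne : ∀ k : ℕ, ¬ ℓ ∣ k → 1 - ζ' ^ k ≠ 0 := by
    intro k hk h0
    exact hk ((hζ.pow_eq_one_iff_dvd k).1 (sub_eq_zero.1 h0).symm)
  have hod : ∀ k : ℕ, ¬ ℓ ∣ k → od w (1 - ζ' ^ k) = od w (1 - ζ') := by
    intro k hk
    rw [od, od, lva_eq hℓ hζ w hk]
  obtain ⟨n, rfl⟩ : ∃ n, ℓ = n + 1 := ⟨ℓ - 1, by have := hℓ.one_lt; omega⟩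
  have hp := hζ.prod_one_sub_pow_eq_order
  have hnd : ∀ k ∈ Finset.range n, ¬ (n + 1) ∣ k + 1 := by
    intro k hk hd
    have := Nat.le_of_dvd (Nat.succ_pos k) hd
    rw [Finset.mem_range] at hk
    omega
  have h2 : od w (((n + 1 : ℕ) : N)) = (n : ℤ) * od w (1 - ζ') := by
    push_cast
    rw [← hp, od_prod w _ _ (fun k hk => hne _ (hnd k hk)),
      Finset.sum_congr rfl (fun k hk => hod _ (hnd k hk)), Finset.sum_const, Finset.card_range,
      nsmul_eq_mul]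
  rw [hod j hj]
  rw [hw] at h2
  have hn0 : (n : ℤ) ≠ 0 := by
    have := hℓ.one_lt
    have : 0 < n := by omega
    positivity
  apply mul_left_cancel₀ hn0
  rw [← h2]
  push_cast
  ring

end

section
variable {N L : Type u} [Field N] [NumberField N] [Field L] [NumberField L] [Algebra N L]

theorem val_root {ℓ : ℕ} (hℓ : ℓ.Prime) (W : HeightOneSpectrum (𝓞 L)) {a : N} {α : L}
    (hα : α ^ ℓ = algebraMap N L a)
    (ha : (W.under (𝓞 N)).valuation N (a - 1) = WithZero.exp (-1 : ℤ))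
    (hl : 2 ≤ od (W.under (𝓞 N)) (ℓ : N)) :
    W.valuation L α = 1 ∧
      (ℓ : ℤ) * od W (α - 1) = (W.asIdeal.ramificationIdx (𝓞 N) : ℤ) := by
  have he : 0 < W.asIdeal.ramificationIdx (𝓞 N) := ramIdx_pos W
  have hl0 : (ℓ : L) ≠ 0 := Nat.cast_ne_zero.2 hℓ.ne_zero
  have ha0 : a - 1 ≠ 0 := by
    intro h0
    rw [h0, map_zero] at ha
    exact WithZero.exp_ne_zero ha.symm
  have ha1 : od (W.under (𝓞 N)) (a - 1) = 1 := by
    rw [od, ha, WithZero.log_exp]
    norm_num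
  have hα1 : α ^ ℓ - 1 = algebraMap N L (a - 1) := by rw [map_sub, map_one, hα]
  have hα0 : α ^ ℓ - 1 ≠ 0 := by
    rw [hα1]
    exact (map_ne_zero _).2 ha0
  have h1 : od W (α ^ ℓ - 1) = (W.asIdeal.ramificationIdx (𝓞 N) : ℤ) := by
    rw [hα1, od_map, ha1, mul_one]
  have h2 : W.valuation L (α ^ ℓ - 1) < 1 := by
    rw [val_lt_one_iff W hα0, h1]
    exact_mod_cast he
  have h3 : W.valuation L (α ^ ℓ) = 1 := by
    apply lva_one (W.valuation L) (x := (1 : L)) (map_one _)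
    rw [Valuation.map_sub_swap]
    exact h2
  have h4 : W.valuation L α = 1 := lva_pow _ hℓ.ne_zero h3
  refine ⟨h4, ?_⟩
  have hy : W.valuation L (α - 1) ≤ 1 := by
    refine (Valuation.map_sub _ _ _).trans ?_
    rw [h4, map_one, max_self]
  obtain ⟨r, hr⟩ := exists_add_pow_prime_eq hℓ (1 : (W.valuation L).integer) ⟨α - 1, hy⟩
  have hr' : α ^ ℓ = 1 + (α - 1) ^ ℓ + ℓ * (α - 1) * (r : L) := by
    have h5 := congrArg Subtype.val hr
    simp only [Subring.coe_add, Subring.coe_mul, Subring.coe_pow, Subring.coe_one, one_pow,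
      mul_one, Subring.coe_natCast, add_sub_cancel] at h5
    exact h5
  have hrr : W.valuation L (r : L) ≤ 1 := r.2
  have hle : W.valuation L ((ℓ : L) * (α - 1) * r) < W.valuation L (α ^ ℓ - 1) := by
    have h5 : W.valuation L ((ℓ : L) * (α - 1) * r) ≤ W.valuation L (ℓ : L) := by
      rw [map_mul, map_mul, mul_assoc]
      exact mul_le_of_le_one_right' (mul_le_one' hy hrr)
    refine h5.trans_lt ?_
    rw [val_eq W hl0, val_eq W hα0, WithZero.exp_lt_exp, h1]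
    have h6 := od_map (k := N) W (ℓ : N)
    rw [map_natCast] at h6
    rw [h6]
    have : (0 : ℤ) < (W.asIdeal.ramificationIdx (𝓞 N) : ℤ) := by exact_mod_cast he
    nlinarith
  have h5 : W.valuation L ((α - 1) ^ ℓ) = W.valuation L (α ^ ℓ - 1) := by
    have e : (α - 1) ^ ℓ = (α ^ ℓ - 1) - (ℓ : L) * (α - 1) * r := by
      rw [hr']
      ring
    rw [e]
    exact Valuation.map_sub_eq_of_lt_left _ hle
  have h6 : od W ((α - 1) ^ ℓ) = od W (α ^ ℓ - 1) := by rw [od, od, h5]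
  rw [od_pow, h1] at h6
  exact h6

theorem exists_poly [IsGalois N L] {ℓ : ℕ} (hℓ : 0 < ℓ) {a : N} {α : L}
    (hα : α ^ ℓ = algebraMap N L a) {z : L} (hz : ∀ σ : Gal(L/N), σ α = α → σ z = z) :
    ∃ b : ℕ → N, z = ∑ j ∈ Finset.range ℓ, algebraMap N L (b j) * (α - 1) ^ j := by
  have : FiniteDimensional N L := Module.Finite.of_restrictScalars_finite ℚ N L
  have h1 : z ∈ IntermediateField.adjoin N ({α} : Set L) := by
    rw [← IsGalois.fixedField_fixingSubgroup (IntermediateField.adjoin N ({α} : Set L)),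
      IntermediateField.mem_fixedField_iff]
    intro σ hσ
    apply hz
    rw [IntermediateField.mem_fixingSubgroup_iff] at hσ
    exact hσ α (IntermediateField.mem_adjoin_simple_self N α)
  have h2 : z ∈ Algebra.adjoin N ({α} : Set L) := by
    rw [← IntermediateField.adjoin_simple_toSubalgebra_of_isAlgebraic
      (IsAlgebraic.of_finite N α)]
    exact h1
  rw [Algebra.adjoin_singleton_eq_range_aeval] at h2
  obtain ⟨p, hp⟩ := h2
  have hmon : (Polynomial.X ^ ℓ - Polynomial.C a : Polynomial N).Monic :=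
    Polynomial.monic_X_pow_sub_C a hℓ.ne'
  have hroot : Polynomial.aeval α (Polynomial.X ^ ℓ - Polynomial.C a : Polynomial N) = 0 := by
    rw [map_sub, map_pow, Polynomial.aeval_X, Polynomial.aeval_C, hα, sub_self]
  have hp2 : Polynomial.aeval α (p %ₘ (Polynomial.X ^ ℓ - Polynomial.C a)) = z := by
    rw [Polynomial.aeval_modByMonic_eq_self_of_root hroot]
    exact hp
  have hdeg : (p %ₘ (Polynomial.X ^ ℓ - Polynomial.C a)).natDegree < ℓ := by
    have h3 := Polynomial.natDegree_modByMonic_lt p hmon (by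
      intro h4
      have h5 := congrArg Polynomial.natDegree h4
      rw [Polynomial.natDegree_X_pow_sub_C, Polynomial.natDegree_one] at h5
      exact hℓ.ne' h5)
    rwa [Polynomial.natDegree_X_pow_sub_C] at h3
  set p1 := p %ₘ (Polynomial.X ^ ℓ - Polynomial.C a) with hp1
  have hdeg2 : (p1.comp (Polynomial.X + Polynomial.C 1)).natDegree < ℓ := by
    rw [Polynomial.natDegree_comp, Polynomial.natDegree_X_add_C, mul_one]
    exact hdeg
  refine ⟨fun j => (p1.comp (Polynomial.X + Polynomial.C 1)).coeff j, ?_⟩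
  have h4 := Polynomial.aeval_eq_sum_range' hdeg2 (α - 1)
  rw [Polynomial.aeval_comp, map_add, Polynomial.aeval_X, Polynomial.aeval_C, map_one,
    sub_add_cancel, hp2] at h4
  rw [h4]
  refine Finset.sum_congr rfl fun j _ => ?_
  rw [Algebra.smul_def]

omit [NumberField L] in
private theorem lvc_pow {Γ : Type*} [LinearOrderedCommGroupWithZero Γ] (v : Valuation L Γ)
    {x y : L} (hx : v x ≤ 1) (hy : v y ≤ 1) (j : ℕ) : v (x ^ j - y ^ j) ≤ v (x - y) := by
  induction j with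
  | zero => simp
  | succ j ih =>
    have h1 : x ^ (j + 1) - y ^ (j + 1) = x ^ j * (x - y) + (x ^ j - y ^ j) * y := by ring
    rw [h1]
    refine v.map_add_le ?_ ?_
    · rw [map_mul, map_pow]
      calc v x ^ j * v (x - y) ≤ 1 * v (x - y) :=
            mul_le_mul_left (pow_le_one' hx j) _
        _ = v (x - y) := one_mul _
    · rw [map_mul]
      calc v (x ^ j - y ^ j) * v y ≤ v (x ^ j - y ^ j) * 1 := mul_le_mul_right hy _
        _ = v (x ^ j - y ^ j) := mul_one _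
        _ ≤ v (x - y) := ih

private theorem lvc_coef {ℓ : ℕ} (hℓ0 : 0 < ℓ) (W : HeightOneSpectrum (𝓞 L)) {y : L} (hy0 : y ≠ 0)
    (hy : (ℓ : ℤ) * od W y = (W.asIdeal.ramificationIdx (𝓞 N) : ℤ)) (b : ℕ → N)
    (hz : W.valuation L (∑ j ∈ Finset.range ℓ, algebraMap N L (b j) * y ^ j) ≤ 1) :
    ∀ j ∈ Finset.range ℓ, W.valuation L (algebraMap N L (b j)) ≤ 1 := by
  classical
  have he : 0 < (W.asIdeal.ramificationIdx (𝓞 N) : ℤ) := by
    exact_mod_cast ramIdx_pos (k := N) W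
  have hodt : ∀ j, b j ≠ 0 → algebraMap N L (b j) * y ^ j ≠ 0 := by
    intro j hj
    exact mul_ne_zero (by simpa using hj) (pow_ne_zero _ hy0)
  have hod : ∀ j, b j ≠ 0 → (ℓ : ℤ) * od W (algebraMap N L (b j) * y ^ j) =
      (W.asIdeal.ramificationIdx (𝓞 N) : ℤ) * ((ℓ : ℤ) * od (W.under (𝓞 N)) (b j) + j) := by
    intro j hj
    rw [od_mul W (by simpa using hj) (pow_ne_zero _ hy0), od_map, od_pow]
    calc (ℓ : ℤ) * ((W.asIdeal.ramificationIdx (𝓞 N) : ℤ) * od (W.under (𝓞 N)) (b j) +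
          (j : ℤ) * od W y)
        = (W.asIdeal.ramificationIdx (𝓞 N) : ℤ) * ((ℓ : ℤ) * od (W.under (𝓞 N)) (b j)) +
          (j : ℤ) * ((ℓ : ℤ) * od W y) := by ring
      _ = _ := by rw [hy]; ring
  have hℓZ : (0 : ℤ) < ℓ := by exact_mod_cast hℓ0
  intro j hj
  by_cases hbj : b j = 0
  · rw [hbj, map_zero, map_zero]
    exact zero_le
  -- the minimal index
  obtain ⟨m, hm, hmin⟩ := Finset.exists_min_image ((Finset.range ℓ).filter (fun i => b i ≠ 0))
    (fun i => (ℓ : ℤ) * od (W.under (𝓞 N)) (b i) + i) ⟨j, Finset.mem_filter.2 ⟨hj, hbj⟩⟩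
  rw [Finset.mem_filter] at hm
  have hlt : ∀ i ∈ Finset.range ℓ \ {m}, W.valuation L (algebraMap N L (b i) * y ^ i) <
      W.valuation L (algebraMap N L (b m) * y ^ m) := by
    intro i hi
    rw [Finset.mem_sdiff, Finset.mem_singleton] at hi
    have hm0 := hodt m hm.2
    by_cases hbi : b i = 0
    · rw [hbi, map_zero, zero_mul, map_zero]
      exact zero_lt_iff.2 ((Valuation.ne_zero_iff _).2 hm0)
    · have h1 := hmin i (Finset.mem_filter.2 ⟨hi.1, hbi⟩)
      have h2 : (ℓ : ℤ) * od (W.under (𝓞 N)) (b m) + m ≠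
          (ℓ : ℤ) * od (W.under (𝓞 N)) (b i) + i := by
        intro h3
        have h4 : (i : ℤ) % ℓ = (m : ℤ) % ℓ := by
          have h5 : ((ℓ : ℤ) * od (W.under (𝓞 N)) (b m) + m) % ℓ =
              ((ℓ : ℤ) * od (W.under (𝓞 N)) (b i) + i) % ℓ := by rw [h3]
          rw [Int.mul_add_emod_self_left, Int.mul_add_emod_self_left] at h5
          exact h5.symm
        have hi' := Finset.mem_range.1 hi.1
        have hm' := Finset.mem_range.1 hm.1
        rw [Int.emod_eq_of_lt (by positivity) (by exact_mod_cast hi'),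
          Int.emod_eq_of_lt (by positivity) (by exact_mod_cast hm')] at h4
        exact hi.2 (by exact_mod_cast h4)
      have h3 : (ℓ : ℤ) * od (W.under (𝓞 N)) (b m) + m <
          (ℓ : ℤ) * od (W.under (𝓞 N)) (b i) + i := lt_of_le_of_ne h1 h2
      have h4 : od W (algebraMap N L (b m) * y ^ m) < od W (algebraMap N L (b i) * y ^ i) := by
        have h5 : (ℓ : ℤ) * od W (algebraMap N L (b m) * y ^ m) <
            (ℓ : ℤ) * od W (algebraMap N L (b i) * y ^ i) := by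
          rw [hod m hm.2, hod i hbi]
          exact mul_lt_mul_of_pos_left h3 he
        exact lt_of_mul_lt_mul_left h5 hℓZ.le
      rw [← not_le, val_le_val_iff W hm0 (hodt i hbi), not_le]
      exact h4
  rw [Valuation.map_sum_eq_of_lt _ hm.1 hlt, val_le_one_iff W (hodt m hm.2)] at hz
  have h1 : 0 ≤ (ℓ : ℤ) * od (W.under (𝓞 N)) (b m) + m := by
    have h2 : 0 ≤ (W.asIdeal.ramificationIdx (𝓞 N) : ℤ) *
        ((ℓ : ℤ) * od (W.under (𝓞 N)) (b m) + m) := by
      rw [← hod m hm.2]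
      exact mul_nonneg hℓZ.le hz
    exact nonneg_of_mul_nonneg_right h2 he
  have h2 := h1.trans (hmin j (Finset.mem_filter.2 ⟨hj, hbj⟩))
  have hj' : (j : ℤ) < ℓ := by exact_mod_cast Finset.mem_range.1 hj
  have h3 : 0 ≤ od (W.under (𝓞 N)) (b j) := by
    by_contra h4
    push Not at h4
    have h5 : (ℓ : ℤ) * od (W.under (𝓞 N)) (b j) ≤ (ℓ : ℤ) * (-1) :=
      mul_le_mul_of_nonneg_left (by omega) hℓZ.le
    have h2' : 0 ≤ (ℓ : ℤ) * od (W.under (𝓞 N)) (b j) + j := h2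
    omega
  rw [val_map_le, val_le_one_iff _ hbj]
  exact h3

theorem val_sub_of_level [IsGalois N L] {ℓ : ℕ} (hℓ : ℓ.Prime) (W : HeightOneSpectrum (𝓞 L))
    {a : N} {α : L} (hα : α ^ ℓ = algebraMap N L a)
    (ha : (W.under (𝓞 N)).valuation N (a - 1) = WithZero.exp (-1 : ℤ))
    (hl : 2 ≤ od (W.under (𝓞 N)) (ℓ : N)) {z : L}
    (hz : ∀ σ : Gal(L/N), σ α = α → σ z = z) (hz1 : W.valuation L z ≤ 1) {τ : Gal(L/N)} {ξ : L}
    (hξ : W.valuation L ξ ≤ 1) (hτ : τ α = ξ * α) :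
    W.valuation L (τ z - z) ≤ W.valuation L (ξ - 1) := by
  obtain ⟨hα1, hy⟩ := val_root hℓ W hα ha hl
  obtain ⟨b, hb⟩ := exists_poly hℓ.pos hα hz
  have he : 0 < (W.asIdeal.ramificationIdx (𝓞 N) : ℤ) := by
    exact_mod_cast ramIdx_pos (k := N) W
  have hy0 : α - 1 ≠ 0 := by
    intro h0
    rw [h0] at hy
    have h1 : od W (0 : L) = 0 := by
      unfold od
      rw [map_zero, WithZero.log_zero, neg_zero]
    rw [h1, mul_zero] at hy
    omega
  rw [hb] at hz1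
  have hco := lvc_coef hℓ.pos W hy0 hy b hz1
  have hv1 : W.valuation L (α - 1) ≤ 1 := by
    refine (Valuation.map_sub _ _ _).trans ?_
    rw [hα1, map_one, max_self]
  have hτv : W.valuation L (τ (α - 1)) ≤ 1 := by
    rw [map_sub, map_one, hτ]
    refine (Valuation.map_sub _ _ _).trans (max_le ?_ (by rw [map_one]))
    rw [map_mul, hα1, mul_one]
    exact hξ
  have hdiff : τ (α - 1) - (α - 1) = (ξ - 1) * α := by
    rw [map_sub, map_one, hτ]
    ring
  have hkey : τ z - z = ∑ j ∈ Finset.range ℓ,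
      algebraMap N L (b j) * (τ (α - 1) ^ j - (α - 1) ^ j) := by
    conv_lhs => rw [hb]
    rw [map_sum, ← Finset.sum_sub_distrib]
    refine Finset.sum_congr rfl fun j _ => ?_
    rw [map_mul, AlgEquiv.commutes, map_pow]
    ring
  rw [hkey]
  refine Valuation.map_sum_le _ fun j hj => ?_
  rw [map_mul]
  calc W.valuation L (algebraMap N L (b j)) *
        W.valuation L (τ (α - 1) ^ j - (α - 1) ^ j)
      ≤ 1 * W.valuation L (τ (α - 1) ^ j - (α - 1) ^ j) := mul_le_mul_left (hco j hj) _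
    _ = W.valuation L (τ (α - 1) ^ j - (α - 1) ^ j) := one_mul _
    _ ≤ W.valuation L (τ (α - 1) - (α - 1)) := lvc_pow _ hτv hv1 j
    _ = W.valuation L (ξ - 1) := by rw [hdiff, map_mul, hα1, mul_one]

/-- integral coefficients of a product of linear factors -/
private theorem lvd_coeff {M : Type u} [Field M] [NumberField M] (W : HeightOneSpectrum (𝓞 M))
    {ι : Type*} (s : Finset ι) (a : ι → M) (ha : ∀ i, W.valuation M (a i) ≤ 1) (n : ℕ) :
    W.valuation M ((∏ i ∈ s, (Polynomial.X - Polynomial.C (a i))).coeff n) ≤ 1 := by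
  classical
  induction s using Finset.induction_on generalizing n with
  | empty =>
    rw [Finset.prod_empty, Polynomial.coeff_one]
    split_ifs
    · rw [map_one]
    · rw [map_zero]
      exact zero_le_one
  | insert i s hi ih =>
    rw [Finset.prod_insert hi, mul_comm]
    have h1 : ∀ m, W.valuation M ((∏ i ∈ s, (Polynomial.X - Polynomial.C (a i))).coeff m * a i)
        ≤ 1 := by
      intro m
      rw [map_mul]
      exact mul_le_one' (ih m) (ha i)
    cases n with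
    | zero =>
      rw [Polynomial.mul_coeff_zero, Polynomial.coeff_sub, Polynomial.coeff_X_zero,
        Polynomial.coeff_C_zero, zero_sub, mul_neg, Valuation.map_neg]
      exact h1 0
    | succ n =>
      rw [Polynomial.coeff_mul_X_sub_C]
      exact Valuation.map_sub_le _ (ih n) (h1 (n + 1))

open scoped Classical in
theorem val_prod (W : HeightOneSpectrum (𝓞 L)) (H : Subgroup Gal(L/N)) (τ : Gal(L/N)) {T : L}
    (hT : ∀ σ : Gal(L/N), W.valuation L (σ T) ≤ 1)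
    {r : WithZero (Multiplicative ℤ)}
    (hr : ∀ z : L, (∀ h ∈ H, h z = z) → W.valuation L z ≤ 1 → W.valuation L (τ z - z) ≤ r) :
    W.valuation L (∏ h : H, (T - τ ((h : Gal(L/N)) T))) ≤ r := by
  have hT' : ∀ h : H, W.valuation L ((h : Gal(L/N)) T) ≤ 1 := fun h => hT h
  obtain ⟨f, hf⟩ : ∃ f : Polynomial L,
      f = ∏ h : H, (Polynomial.X - Polynomial.C ((h : Gal(L/N)) T)) := ⟨_, rfl⟩
  have hmap : ∀ (σ : Gal(L/N)) (σ' : L →+* L), (∀ x, σ' x = σ x) → f.map σ' =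
      ∏ h : H, (Polynomial.X - Polynomial.C (σ ((h : Gal(L/N)) T))) := by
    intro σ σ' hσ
    rw [hf, Polynomial.map_prod]
    refine Finset.prod_congr rfl fun h _ => ?_
    rw [Polynomial.map_sub, Polynomial.map_X, Polynomial.map_C, hσ]
  have hfix : ∀ g ∈ H, ∀ n, g (f.coeff n) = f.coeff n := by
    intro g hg n
    obtain ⟨g', hg'⟩ : ∃ g' : L →+* L, ∀ x, g' x = g x := ⟨(g : L →+* L), fun _ => rfl⟩
    have h1 : f.map g' = f := by
      rw [hmap g g' hg', hf]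
      refine Fintype.prod_equiv (Equiv.mulLeft (⟨g, hg⟩ : H)) _ _ fun h => ?_
      rfl
    have h2 := congrArg (fun P : Polynomial L => P.coeff n) h1
    simp only [Polynomial.coeff_map] at h2
    rw [← hg', h2]
  have hint : ∀ n, W.valuation L (f.coeff n) ≤ 1 := by
    intro n
    rw [hf]
    exact lvd_coeff W Finset.univ (fun h : H => (h : Gal(L/N)) T) hT' n
  obtain ⟨τ', hτ'⟩ : ∃ τ' : L →+* L, ∀ x, τ' x = τ x := ⟨(τ : L →+* L), fun _ => rfl⟩
  have e1 : Polynomial.eval T (f.map τ') = ∏ h : H, (T - τ ((h : Gal(L/N)) T)) := by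
    rw [hmap τ τ' hτ', Polynomial.eval_prod]
    refine Finset.prod_congr rfl fun h _ => ?_
    rw [Polynomial.eval_sub, Polynomial.eval_X, Polynomial.eval_C]
  have e2 : Polynomial.eval T f = 0 := by
    rw [hf, Polynomial.eval_prod]
    refine Finset.prod_eq_zero (Finset.mem_univ (1 : H)) ?_
    rw [Polynomial.eval_sub, Polynomial.eval_X, Polynomial.eval_C]
    exact sub_self T
  have e3 : Polynomial.eval T (f.map τ') = ∑ j ∈ Finset.range (f.natDegree + 1),
      (τ (f.coeff j) - f.coeff j) * T ^ j := by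
    have h1 : Polynomial.eval T (f.map τ') = ∑ j ∈ Finset.range (f.natDegree + 1),
        τ (f.coeff j) * T ^ j := by
      rw [Polynomial.eval_eq_sum_range' (Nat.lt_succ_of_le Polynomial.natDegree_map_le)]
      refine Finset.sum_congr rfl fun j _ => ?_
      rw [Polynomial.coeff_map, hτ']
    have h2 : ∑ j ∈ Finset.range (f.natDegree + 1), f.coeff j * T ^ j = 0 := by
      rw [← Polynomial.eval_eq_sum_range, e2]
    rw [h1, ← sub_zero (∑ j ∈ Finset.range (f.natDegree + 1), τ (f.coeff j) * T ^ j), ← h2,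
      ← Finset.sum_sub_distrib]
    refine Finset.sum_congr rfl fun j _ => ?_
    ring
  rw [← e1, e3]
  refine Valuation.map_sum_le (v := W.valuation L) fun j _ => ?_
  rw [map_mul, map_pow]
  have h1 := hr (f.coeff j) (fun h hh => hfix h hh j) (hint j)
  have h2 : W.valuation L T ^ j ≤ 1 := pow_le_one' (by
    have h3 := hT 1
    exact h3) j
  calc W.valuation L (τ (f.coeff j) - f.coeff j) * W.valuation L T ^ j
      ≤ r * 1 := mul_le_mul' h1 h2
    _ = r := mul_one r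

end

section
variable {F N N₂ L : Type u} [Field F] [NumberField F] [Algebra K F] [Field N] [NumberField N]
  [Algebra K N] [Field N₂] [NumberField N₂] [Algebra K N₂] [Field L] [NumberField L] [Algebra K L]
  [Algebra F N] [Algebra F N₂] [Algebra F L] [Algebra N L] [Algebra N₂ L]
  [IsScalarTower K F N] [IsScalarTower K F N₂] [IsScalarTower K F L] [IsScalarTower K N L]
  [IsScalarTower K N₂ L] [IsScalarTower F N L] [IsScalarTower F N₂ L]
  [DecidableEq F] [DecidableEq N] [DecidableEq N₂] [DecidableEq L]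
  [IsGalois F N] [IsGalois F N₂] [IsGalois F L]
  {ϖ : 𝓞 K} {ℓ q : ℕ} {P : Pt F} {P₀ : Pt N} {P₂ : Pt N₂} {ζ : L} {Q : Pt L}
  (D : TD ϖ ℓ q P P₀ P₂ ζ Q) (hi : cj ϖ = ϖ)
include D hi

/-- the second point is a multiple of the first one -/
private theorem lvd_exists : ∃ e : 𝓞 K, up L P₂ = sm L e (up L P₀) := by
  have h1 : Ord ϖ (up L P₀) := (ord_up L).2 D.full.ord
  have h2 : Ord ϖ (up L P₂) := by
    have h3 := (ord_up L).2 D.full₂.ord
    rw [hi] at h3
    exact h3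
  obtain ⟨f⟩ := exists_emb L
  exact ord_cases f D.pd.prime.ne_zero h1 ((h2 ϖ).2 dvd_rfl)

/-- the automorphisms over `N` fix the second point -/
private theorem lvd_fix (σ : Gal(L/N)) : ga σ (up L P₂) = up L P₂ := by
  obtain ⟨e, he⟩ := lvd_exists D hi
  rw [he, ga_sm, ga_up_self]

theorem TD.zeta_mem : ∃ ζ' : N, IsPrimitiveRoot ζ' ℓ ∧ algebraMap N L ζ' = ζ := by
  have hfix : ∀ σ : Gal(L/N), σ ζ = ζ := by
    intro σ
    have h1 := D.chi_fix (toF F σ) (by rw [ga_toF, ga_up_self])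
      (by rw [ga_toF]; exact lvd_fix D hi σ)
    exact h1
  have hgal : IsGalois N L := IsGalois.tower_top_of_isGalois F N L
  obtain ⟨ζ', hζ'⟩ := mem_of_fixed (F := N) hfix
  refine ⟨ζ', ?_, hζ'⟩
  have h2 := D.zeta
  rw [← hζ'] at h2
  exact IsPrimitiveRoot.of_map_of_injective h2 (algebraMap N L).injective

theorem TD.val_T (W : HeightOneSpectrum (𝓞 L))
    (hW : W.valuation L (algebraMap K L (ϖ : K)) < 1)
    (hP : Ker ((W.under (𝓞 F)).valuation F) P) (ht : od (W.under (𝓞 N)) (tc P₀) = 1)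
    (σ : Gal(L/N)) : W.valuation L (σ (tc Q)) < 1 ∧
      ∀ x : 𝓞 K, ga σ Q - Q = sm L x (up L P₂) → ¬ ϖ ∣ x →
        od W (tc Q - σ (tc Q)) = (W.asIdeal.ramificationIdx (𝓞 N) : ℤ) := by
  obtain ⟨v, hvd⟩ : ∃ v : Valuation L (WithZero (Multiplicative ℤ)), v = W.valuation L := ⟨_, rfl⟩
  have hb := D.pd.bad_pi hW
  rw [← hvd] at hW hb
  have hR : Ord ϖ (up L P₀) := (ord_up L).2 D.full.ord
  have hR₂ : Ord ϖ (up L P₂) := by
    have h1 := (ord_up L).2 D.full₂.ord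
    rw [hi] at h1
    exact h1
  have hKR : Ker v (up L P₀) := ker_of_val v D.pd.prime D.pd.one hR hW hb
  have hKR₂ : Ker v (up L P₂) := ker_of_val v D.pd.prime D.pd.one hR₂ hW hb
  have hKP : Ker v (up L P) := by
    rw [hvd]
    exact (ker_up L W P).2 hP
  have hKQ : Ker v Q := by
    refine ker_of_sm v D.pd.prime D.pd.one hR hW hb ?_
    have h1 := D.div
    rw [hi] at h1
    rw [h1]
    exact hKP
  have hKs : Ker v (ga σ Q) := by
    obtain ⟨x, hx⟩ := D.exists_kap (toF F σ)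
    rw [ga_toF] at hx
    have h1 : ga σ Q = Q + sm L x (up L P₂) := by rw [← hx]; abel
    rw [h1]
    exact (ker_add v hKQ (ker_sm v hKR₂ x)).1
  have htc : tc (ga σ Q) = σ (tc Q) := tc_pm _ Q
  rw [← hvd]
  refine ⟨by rw [← htc]; exact ker_tc_lt v hKs, fun x hx hxd => ?_⟩
  have h2 : v (2 : L) = 1 := by
    have h3 : ¬ ϖ ∣ ((2 : ℤ) : 𝓞 K) := by
      rw [D.pd.dvd_int_iff]
      intro h4
      have h5 := Int.le_of_dvd (by norm_num) h4
      have := D.pd.five
      omega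
    have h4 := pd_val_coprime D.pd (w := W) (by rw [← hvd]; exact hW) h3
    rw [← hvd] at h4
    have h5 : algebraMap K L ((((2 : ℤ) : 𝓞 K) : K)) = (2 : L) := by
      have h6 : ((((2 : ℤ) : 𝓞 K) : K)) = ((2 : ℤ) : K) := by
        change algebraMap (𝓞 K) K ((2 : ℤ) : 𝓞 K) = _
        rw [map_intCast]
      rw [h6, map_intCast]
      norm_num
    rw [h5] at h4
    exact h4
  -- the value of the local parameter of the multiples
  have hmul : ∀ c : 𝓞 K, ¬ ϖ ∣ c → v (tc (sm L c (up L P₀))) = v (tc (up L P₀)) := by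
    intro c hc
    refine le_antisymm (ker_sm_le v hKR c) ?_
    obtain ⟨d, hd⟩ := D.pd.inv hc
    have h6 : sm L d (sm L c (up L P₀)) = up L P₀ := by
      have h7 : sm L (c * d) (up L P₀) = sm L 1 (up L P₀) := (hR.sm_eq_iff _ _).2 hd
      rw [mul_comm, map_mul, map_one] at h7
      exact h7
    calc v (tc (up L P₀)) = v (tc (sm L d (sm L c (up L P₀)))) := by rw [h6]
      _ ≤ v (tc (sm L c (up L P₀))) := ker_sm_le v (ker_sm v hKR c) d
  obtain ⟨e, he⟩ := lvd_exists D hi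
  have hed : ¬ ϖ ∣ e := by
    intro h6
    have h7 : up L P₂ = 0 := by
      rw [he]
      exact (hR e).2 h6
    have h8 : ϖ ∣ (1 : 𝓞 K) := by
      rw [← hR₂ 1, h7, map_zero]
    exact D.pd.prime.not_isUnit (isUnit_of_dvd_one h8)
  have h9 : tc (Q - ga σ Q) = tc (sm L (-x * e) (up L P₀)) := by
    have h10 : Q - ga σ Q = sm L (-x * e) (up L P₀) := by
      have h11 : sm L (-x * e) (up L P₀) = -(sm L x (sm L e (up L P₀))) := by
        rw [neg_mul, map_neg, map_mul]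
        rfl
      rw [h11, ← he, ← hx]
      abel
    rw [h10]
  have hxe : ¬ ϖ ∣ -x * e := by
    intro h12
    rcases D.pd.prime.dvd_or_dvd h12 with h13 | h13
    · exact hxd ((dvd_neg).1 h13)
    · exact hed h13
  have h14 : v (tc Q - σ (tc Q)) = v (tc (up L P₀)) := by
    rw [← htc, ← tc_sub v h2 hKQ hKs, h9, hmul _ hxe]
  have h15 : od W (tc Q - σ (tc Q)) = od W (tc (up L P₀)) := by
    rw [od, od, ← hvd, h14]
  rw [h15, tc_up, od_map, ht, mul_one]

theorem TD.card_stab (hq : q = ℓ ^ 2) {φ : 𝓞 K →+ ZMod ℓ} (hφ : φ ≠ 0) {y : Nˣ} {α : L}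
    (hK : KC F ϖ ℓ P₀ P₂ ζ Q φ y α) :
    Nat.card {σ : Gal(L/N) // σ α = α} ≤ ℓ := by
  have hℓ := D.pd.hl
  have : NeZero ℓ := ⟨hℓ.ne_zero⟩
  have : Fact ℓ.Prime := ⟨hℓ⟩
  obtain ⟨x₁, hx₁⟩ : ∃ x₁ : 𝓞 K, φ x₁ ≠ 0 := by
    by_contra hcon
    push Not at hcon
    exact hφ (AddMonoidHom.ext hcon)
  have hker : ∀ x : 𝓞 K, ϖ ∣ x → φ x = 0 := by
    have h1 := hK.ker
    rw [hi] at h1
    exact h1
  have hα : α ≠ 0 := by
    rintro rfl
    have h1 := hK.pow
    rw [zero_pow hℓ.ne_zero] at h1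
    exact (map_ne_zero (algebraMap N L)).2 y.ne_zero h1.symm
  choose x hx using fun σ : Gal(L/N) => D.exists_kap (toF F σ)
  have hx' : ∀ σ : Gal(L/N), ga σ Q - Q = sm L (x σ) (up L P₂) := by
    intro σ
    have h1 := hx σ
    rw [ga_toF] at h1
    exact h1
  have hφx : ∀ σ : Gal(L/N), σ α = α → φ (x σ) = 0 := by
    intro σ hσ
    have h1 := hK.act σ (x σ) (hx' σ)
    rw [hσ] at h1
    have h2 : ζ ^ (φ (x σ)).val = 1 := by
      have h3 : ζ ^ (φ (x σ)).val * α = 1 * α := by rw [one_mul]; exact h1.symm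
      exact mul_right_cancel₀ hα h3
    have h3 := (D.zeta.pow_eq_one_iff_dvd _).1 h2
    have h4 := Nat.eq_zero_of_dvd_of_lt h3 (ZMod.val_lt _)
    exact (ZMod.val_eq_zero _).1 h4
  have hinj : ∀ σ σ' : Gal(L/N), ϖ ∣ x σ - x σ' → σ = σ' := by
    intro σ σ' h1
    have h2 : sm L (x σ) (up L P₂) = sm L (x σ') (up L P₂) := by
      rw [D.kap_unique, hi]
      exact h1
    rw [← hx', ← hx'] at h2
    have h3 : ga σ Q = ga σ' Q := by
      have h4 := congrArg (fun z => z + Q) h2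
      simpa only [sub_add_cancel] using h4
    have h5 : ga (σ⁻¹ * σ') Q = Q := by
      rw [ga_mul, ← h3, ← ga_mul, inv_mul_cancel, ga_one]
    have h6 : toF F (σ⁻¹ * σ') = 1 := by
      refine D.gen _ ?_ ?_ ?_ ?_
      · rw [ga_toF, ga_up_self]
      · rw [ga_toF]
        exact lvd_fix D hi _
      · rw [ga_toF, h5]
      · exact D.chi_fix _ (by rw [ga_toF, ga_up_self]) (by rw [ga_toF]; exact lvd_fix D hi _)
    have h7 : σ⁻¹ * σ' = 1 := by
      refine AlgEquiv.ext fun z => ?_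
      have h8 := congrArg (fun g : Gal(L/F) => g z) h6
      exact h8
    exact inv_mul_eq_one.1 h7
  have hfin : Finite (𝓞 K ⧸ Ideal.span {ϖ}) := by
    refine Nat.finite_of_card_ne_zero ?_
    have h1 := D.pd.norm
    rw [Ideal.absNorm_apply, Submodule.cardQuot_apply] at h1
    rw [h1, hq]
    exact pow_ne_zero 2 hℓ.ne_zero
  have hcard : Nat.card (𝓞 K ⧸ Ideal.span {ϖ}) = ℓ ^ 2 := by
    have h1 := D.pd.norm
    rw [Ideal.absNorm_apply, Submodule.cardQuot_apply] at h1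
    rw [h1, hq]
  have hle : Nat.card ({σ : Gal(L/N) // σ α = α} × ZMod ℓ) ≤ Nat.card (𝓞 K ⧸ Ideal.span {ϖ}) := by
    refine Nat.card_le_card_of_injective (fun p : {σ : Gal(L/N) // σ α = α} × ZMod ℓ =>
      Ideal.Quotient.mk (Ideal.span {ϖ}) (x p.1 + p.2.val • x₁)) ?_
    rintro ⟨⟨σ, hσ⟩, j⟩ ⟨⟨σ', hσ'⟩, j'⟩ h1
    have h2 : ϖ ∣ (x σ + j.val • x₁) - (x σ' + j'.val • x₁) := by
      rw [← Ideal.mem_span_singleton, ← Ideal.Quotient.eq]
      exact h1
    have h3 := hker _ h2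
    rw [map_sub, map_add, map_add, map_nsmul, map_nsmul, hφx σ hσ, hφx σ' hσ', zero_add, zero_add,
      nsmul_eq_mul, nsmul_eq_mul, ZMod.natCast_zmod_val, ZMod.natCast_zmod_val, ← sub_mul,
      mul_eq_zero] at h3
    have h4 : j = j' := sub_eq_zero.1 (h3.resolve_right hx₁)
    subst h4
    have h5 : ϖ ∣ x σ - x σ' := by
      have h6 : (x σ + j.val • x₁) - (x σ' + j.val • x₁) = x σ - x σ' := by ring
      rwa [h6] at h2
    have h7 := hinj σ σ' h5
    subst h7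
    rfl
  rw [Nat.card_prod, Nat.card_zmod, hcard, sq] at hle
  exact Nat.le_of_mul_le_mul_right hle hℓ.pos

theorem TD.wloc_inert (hq : q = ℓ ^ 2) {φ : 𝓞 K →+ ZMod ℓ} (hφ : φ ≠ 0) {y : Nˣ} {α : L}
    (hK : KC F ϖ ℓ P₀ P₂ ζ Q φ y α) (hy : ¬ ∃ z : Nˣ, y = z ^ ℓ)
    (w : HeightOneSpectrum (𝓞 N)) (hw : w.valuation N (algebraMap K N (ϖ : K)) < 1)
    (hP : Ker ((w.under (𝓞 F)).valuation F) P) (ht : od w (tc P₀) = 1)
    (hl : od w (ℓ : N) = (ℓ : ℤ) ^ 2 - 1) (hd : (ℓ : ℤ) ∣ od w (y : N)) :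
    WLoc ℓ w (y : N) := by
  classical
  by_contra hn
  have hGal : IsGalois N L := IsGalois.tower_top_of_isGalois F N L
  have hℓ : ℓ.Prime := D.pd.hl
  have hℓ5 : 5 ≤ ℓ := D.pd.five
  have hℓ5' : (5 : ℤ) ≤ (ℓ : ℤ) := by exact_mod_cast hℓ5
  have hℓN : (ℓ : N) ≠ 0 := Nat.cast_ne_zero.mpr hℓ.ne_zero
  have hl2 : 2 ≤ od w (ℓ : N) := by
    rw [hl]
    nlinarith
  have hwℓ : w.valuation N (ℓ : N) < 1 := by
    rw [val_lt_one_iff w hℓN]
    omega
  obtain ⟨b, hb0, hb⟩ := exists_level hℓ hwℓ y.ne_zero hd hn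
  obtain ⟨W, hWw⟩ := CF.exists_over (N := L) w
  obtain ⟨ζ', hζ', hζζ⟩ := D.zeta_mem hi
  have he0 : 0 < (W.asIdeal.ramificationIdx (𝓞 N) : ℤ) := by
    exact_mod_cast ramIdx_pos (k := N) W
  obtain ⟨e, hed⟩ : ∃ e : ℤ, e = (W.asIdeal.ramificationIdx (𝓞 N) : ℤ) := ⟨_, rfl⟩
  rw [← hed] at he0
  have hWϖ : W.valuation L (algebraMap K L (ϖ : K)) < 1 := by
    rw [IsScalarTower.algebraMap_apply K N L, val_map_lt, hWw]
    exact hw
  have hPF : Ker ((W.under (𝓞 F)).valuation F) P := by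
    have h1 : (W.under (𝓞 F)) = w.under (𝓞 F) := by
      rw [← hWw]
      apply HeightOneSpectrum.ext
      simp only [HeightOneSpectrum.under_asIdeal]
      rw [Ideal.under_under]
    rw [h1]
    exact hP
  have ht' : od (W.under (𝓞 N)) (tc P₀) = 1 := by
    rw [hWw]
    exact ht
  have hTv := D.val_T hi W hWϖ hPF ht'
  have hα0 : α ≠ 0 := by
    intro h0
    have h1 := hK.pow
    rw [h0, zero_pow hℓ.ne_zero] at h1
    have h2 : algebraMap N L (y : N) ≠ 0 := by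
      rw [Ne, map_eq_zero]
      exact y.ne_zero
    exact h2 h1.symm
  have hbL : algebraMap N L b ≠ 0 := by
    rw [Ne, map_eq_zero]
    exact hb0
  -- some automorphism moves `α`
  have hτ : ∃ τ : Gal(L/N), τ α ≠ α := by
    by_contra hcon
    push Not at hcon
    obtain ⟨a, ha⟩ := mem_of_fixed hcon
    have ha1 : a ^ ℓ = (y : N) := by
      apply (algebraMap N L).injective
      rw [map_pow, ha, hK.pow]
    have ha0 : a ≠ 0 := by
      rintro rfl
      rw [map_zero] at ha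
      exact hα0 ha.symm
    exact hy ⟨Units.mk0 a ha0, Units.ext (by rw [Units.val_pow_eq_pow_val, Units.val_mk0, ha1])⟩
  obtain ⟨τ, hτα⟩ := hτ
  have hkap : ∀ σ : Gal(L/N), ∃ x : 𝓞 K, ga σ Q - Q = sm L x (up L P₂) := by
    intro σ
    obtain ⟨x, hx⟩ := D.exists_kap (toF F σ)
    rw [ga_toF] at hx
    exact ⟨x, hx⟩
  obtain ⟨xτ, hxτ⟩ := hkap τ
  have hact := hK.act τ xτ hxτ
  obtain ⟨m, hm⟩ : ∃ m : ℕ, m = (φ xτ).val := ⟨_, rfl⟩
  rw [← hm] at hact
  have hmℓ : ¬ ℓ ∣ m := by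
    rintro ⟨j, hj⟩
    apply hτα
    rw [hact, hj, pow_mul, D.zeta.pow_eq_one, one_pow, one_mul]
  have hodζ : od w (ζ' ^ m - 1) = (ℓ : ℤ) + 1 := by
    have h1 := one_sub_zeta hℓ hζ' hl hmℓ
    rw [← h1]
    unfold od
    rw [Valuation.map_sub_swap]
  have hζm : ζ' ^ m - 1 ≠ 0 := by
    intro h0
    rw [h0] at hodζ
    have h1 : od w (0 : N) = 0 := by
      unfold od
      rw [map_zero, WithZero.log_zero, neg_zero]
    rw [h1] at hodζ
    omega
  have hξ0 : ζ ^ m - 1 ≠ 0 := by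
    have h1 : algebraMap N L (ζ' ^ m - 1) ≠ 0 := by
      rw [Ne, map_eq_zero]
      exact hζm
    rwa [map_sub, map_pow, map_one, hζζ] at h1
  have hodξ : od W (ζ ^ m - 1) = e * ((ℓ : ℤ) + 1) := by
    have h1 := od_map W (ζ' ^ m - 1)
    rw [map_sub, map_pow, map_one, hζζ, hWw, hodζ, ← hed] at h1
    exact h1
  have hξ1 : W.valuation L (ζ ^ m) ≤ 1 := by
    have h1 : W.valuation L ζ ^ ℓ = 1 := by
      rw [← map_pow, D.zeta.pow_eq_one, map_one]
    have h2 : W.valuation L ζ = 1 := (pow_eq_one_iff_left hℓ.ne_zero).mp h1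
    rw [map_pow, h2, one_pow]
  -- the stabilizer of `α`
  obtain ⟨H, hH⟩ : ∃ H : Subgroup Gal(L/N), ∀ σ : Gal(L/N), σ ∈ H ↔ σ α = α := by
    refine ⟨{ carrier := {σ | σ α = α}, mul_mem' := ?_, one_mem' := ?_, inv_mem' := ?_ },
      fun σ => Iff.rfl⟩
    · intro a b ha hb
      show (a * b) α = α
      rw [AlgEquiv.mul_apply]
      rw [show b α = α from hb]
      exact ha
    · rfl
    · intro a ha
      show a⁻¹ α = α
      have h1 : a α = α := ha
      calc a⁻¹ α = a⁻¹ (a α) := by rw [h1]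
        _ = (a⁻¹ * a) α := (AlgEquiv.mul_apply _ _ _).symm
        _ = α := by rw [inv_mul_cancel]; rfl
  have hcard : (Fintype.card H : ℤ) ≤ ℓ := by
    have h1 := D.card_stab hi hq hφ hK
    have h2 : Nat.card {σ : Gal(L/N) // σ α = α} = Nat.card H :=
      Nat.card_congr (Equiv.subtypeEquivRight fun σ => (hH σ).symm)
    rw [h2, Nat.card_eq_fintype_card] at h1
    exact_mod_cast h1
  have hα' : (α * algebraMap N L b) ^ ℓ = algebraMap N L ((y : N) * b ^ ℓ) := by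
    rw [mul_pow, hK.pow, map_mul, map_pow]
  have hr : ∀ z : L, (∀ h ∈ H, h z = z) → W.valuation L z ≤ 1 →
      W.valuation L (τ z - z) ≤ W.valuation L (ζ ^ m - 1) := by
    intro z hz hz1
    refine val_sub_of_level hℓ W hα' ?_ ?_ ?_ hz1 hξ1 ?_
    · rw [hWw]
      exact hb
    · rw [hWw]
      exact hl2
    · intro σ hσ
      apply hz σ
      rw [hH]
      rw [map_mul, AlgEquiv.commutes] at hσ
      exact mul_right_cancel₀ hbL hσ
    · rw [map_mul, AlgEquiv.commutes, hact, mul_assoc]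
  have hprod := val_prod W H τ (T := tc Q) (fun σ => (hTv σ).1.le) hr
  -- the factors
  have hfac : ∀ h : H, od W (tc Q - τ ((h : Gal(L/N)) (tc Q))) = e := by
    intro h
    obtain ⟨x, hx⟩ := hkap (τ * (h : Gal(L/N)))
    have h1 := (hTv (τ * (h : Gal(L/N)))).2 x hx ?_
    · rw [← hed] at h1
      exact h1
    · intro hdvd
      apply hτα
      have h2 := hK.act _ x hx
      rw [hK.ker x (by rw [hi]; exact hdvd), ZMod.val_zero, pow_zero, one_mul,
        AlgEquiv.mul_apply, (hH _).mp h.2] at h2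
      exact h2
  have hfac0 : ∀ h : H, tc Q - τ ((h : Gal(L/N)) (tc Q)) ≠ 0 := by
    intro h h0
    have h1 := hfac h
    rw [h0] at h1
    have h2 : od W (0 : L) = 0 := by
      unfold od
      rw [map_zero, WithZero.log_zero, neg_zero]
    rw [h2] at h1
    omega
  have hprod0 : ∏ h : H, (tc Q - τ ((h : Gal(L/N)) (tc Q))) ≠ 0 :=
    Finset.prod_ne_zero_iff.mpr fun h _ => hfac0 h
  have hprod' : od W (ζ ^ m - 1) ≤ od W (∏ h : H, (tc Q - τ ((h : Gal(L/N)) (tc Q)))) := by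
    rw [← val_le_val_iff W hprod0 hξ0]
    convert hprod
  rw [od_prod W _ _ (fun h _ => hfac0 h), Finset.sum_congr rfl (fun h _ => hfac h),
    Finset.sum_const, Finset.card_univ, nsmul_eq_mul, hodξ] at hprod'
  nlinarith

end

end Pool.Agent.Lib.MP_1a91b9_ntX.DX
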