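import Pool.Agent.Lib.MP_1a91b9_ntX.DX.Kum
import Pool.Agent.Lib.MP_1a91b9_ntX.DB.Ram

/-!
# DX: places prime to `6 D` and to `cj ϖ`: unramified, local conditions

Port of MP_1a91b9_ntT/DX/Unr.lean to the curves `y² = x³ + D`.
-/

set_option autoImplicit false

namespace Pool.Agent.Lib.MP_1a91b9_ntX.DX

open NumberField IsDedekindDomain WeierstrassCurve Pool.Agent.Lib.MP_1a91b9_ntT
open Pool.Agent.Lib.MP_1a91b9_ntX.DB

universe u

variable [DD] [HC]

section
variable {k L : Type u} [Field k] [NumberField k] [Field L] [NumberField L] [Algebra k L]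

/-- an inertia automorphism fixes the place -/
private theorem ura_gpl (W : HeightOneSpectrum (𝓞 L)) (σ : Gal(L/k))
    (hσ : ∀ x : 𝓞 L, σ • x - x ∈ W.asIdeal) : gpl σ W = W := by
  apply HeightOneSpectrum.ext
  ext x
  have h1 : x ∈ (gpl σ W).asIdeal ↔ σ⁻¹ • x ∈ W.asIdeal := Iff.rfl
  have h2 : x - σ⁻¹ • x ∈ W.asIdeal := by
    have h := hσ (σ⁻¹ • x)
    rwa [smul_inv_smul] at h
  rw [h1]
  constructor
  · intro h
    have := W.asIdeal.add_mem h2 h
    rwa [sub_add_cancel] at this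
  · intro h
    have := W.asIdeal.sub_mem h h2
    rwa [sub_sub_cancel] at this

private theorem ura_val (W : HeightOneSpectrum (𝓞 L)) (σ : Gal(L/k))
    (hσ : ∀ x : 𝓞 L, σ • x - x ∈ W.asIdeal) (a : L) :
    W.valuation L (σ a) = W.valuation L a := by
  have h := gpl_val σ W a
  rwa [ura_gpl W σ hσ] at h

private theorem ura_cong (W : HeightOneSpectrum (𝓞 L)) (σ : Gal(L/k))
    (hσ : ∀ x : 𝓞 L, σ • x - x ∈ W.asIdeal) {a : L} (ha : W.valuation L a ≤ 1) :
    W.valuation L (σ a - a) < 1 := by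
  obtain ⟨x, hx⟩ := exists_val_lt_of_int W ha 1
  have hx1 : W.valuation L (a - (x : L)) < 1 := by
    refine lt_of_le_of_lt hx ?_
    rw [← WithZero.exp_zero, WithZero.exp_lt_exp]
    norm_num
  have h2 : W.valuation L (σ (a - (x : L))) < 1 := by rwa [ura_val W σ hσ]
  have h3 : W.valuation L (σ (x : L) - (x : L)) < 1 := by
    have e : σ (x : L) - (x : L) = algebraMap (𝓞 L) L (σ • x - x) := by
      rw [map_sub]
      rfl
    rw [e, HeightOneSpectrum.valuation_of_algebraMap]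
    exact (HeightOneSpectrum.intValuation_lt_one_iff_mem _ _).2 (hσ x)
  have e : σ a - a = σ (a - (x : L)) + (σ (x : L) - (x : L)) - (a - (x : L)) := by
    rw [map_sub]
    ring
  rw [e]
  exact Valuation.map_sub_lt _ (Valuation.map_add_lt _ h2 h3) hx1

variable [Algebra K k] [Algebra K L] [IsScalarTower K k L] [DecidableEq L]

/-- an inertia automorphism acts trivially on the reduction of the points -/
private theorem ura_ker (W : HeightOneSpectrum (𝓞 L)) (h3 : W.valuation L (bD L) = 1)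
    (σ : Gal(L/k)) (hσ : ∀ x : 𝓞 L, σ • x - x ∈ W.asIdeal) (T : Pt L) :
    Ker (W.valuation L) (ga σ T - T) := by
  by_cases hT : Ker (W.valuation L) T
  · have h1 : Ker (W.valuation L) (ga σ T) := by
      rcases hT with rfl | h
      · rw [map_zero]
        exact Or.inl rfl
      · right
        rwa [xc_ga, ura_val W σ hσ]
    exact ker_sub _ h1 hT
  · obtain ⟨hT0, hx, hy⟩ := not_ker _ hT
    have h1 : ¬ Ker (W.valuation L) (ga σ T) := by
      rintro (h | h)
      · exact hT0 (pm_inj _ (h.trans (map_zero _).symm))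
      · rw [xc_ga, ura_val W σ hσ] at h
        exact absurd h (not_lt.2 hx)
    refine red_inj _ h3 h1 hT ?_ ?_
    · rw [xc_ga]
      exact ura_cong W σ hσ hx
    · rw [yc_ga]
      exact ura_cong W σ hσ hy

/-- a point of the kernel killed by a prime element which is a unit at the place is zero -/
private theorem ura_zero (W : HeightOneSpectrum (𝓞 L)) {β : 𝓞 K} (hβ : Prime β)
    (hW : W.valuation L (algebraMap K L (β : K)) = 1) {S : Pt L}
    (hS : Ker (W.valuation L) S) (h0 : sm L β S = 0) : S = 0 := by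
  by_contra hne
  exact not_ker_of_val (W.valuation L) hβ (ord_of_prime hβ h0 hne) hW hS

end

section
variable {F N N₂ L : Type u} [Field F] [NumberField F] [Algebra K F] [Field N] [NumberField N]
  [Algebra K N] [Field N₂] [NumberField N₂] [Algebra K N₂] [Field L] [NumberField L] [Algebra K L]
  [Algebra F N] [Algebra F N₂] [Algebra F L] [Algebra N L] [Algebra N₂ L]
  [IsScalarTower K F N] [IsScalarTower K F N₂] [IsScalarTower K F L] [IsScalarTower K N L]
  [IsScalarTower K N₂ L] [IsScalarTower F N L] [IsScalarTower F N₂ L]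
  [DecidableEq F] [DecidableEq N] [DecidableEq N₂] [DecidableEq L]
  [IsGalois F N] [IsGalois F N₂] [IsGalois F L]
  {ϖ : 𝓞 K} {ℓ q : ℕ} {P : Pt F} {P₀ : Pt N} {P₂ : Pt N₂} {ζ : L} {Q : Pt L}
  (D : TD ϖ ℓ q P P₀ P₂ ζ Q)
include D

theorem TD.inert (W : HeightOneSpectrum (𝓞 L)) (h3 : W.valuation L (bD L) = 1)
    (hW : W.valuation L (algebraMap K L (cj ϖ : K)) = 1) (σ : Gal(L/N))
    (hσ : ∀ x : 𝓞 L, σ • x - x ∈ W.asIdeal) : σ = 1 := by
  have hp := (pd_cj D.pd).prime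
  have hσ' : ∀ x : 𝓞 L, toF F σ • x - x ∈ W.asIdeal := hσ
  -- the point of annihilator `cj ϖ`
  have hR : ga (toF F σ) (up L P₂) = up L P₂ := by
    have h0 : sm L (cj ϖ) (up L P₂) = 0 := ((ord_up L).2 D.full₂.ord (cj ϖ)).2 dvd_rfl
    refine sub_eq_zero.1 (ura_zero W hp hW (ura_ker W h3 (toF F σ) hσ' (up L P₂)) ?_)
    rw [map_sub, ← ga_sm, h0, map_zero, sub_zero]
  have hQ : ga (toF F σ) Q = Q := by
    refine sub_eq_zero.1 (ura_zero W hp hW (ura_ker W h3 (toF F σ) hσ' Q) ?_)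
    rw [map_sub, ← ga_sm, D.div, ga_up_self, sub_self]
  have hP : ga (toF F σ) (up L P₀) = up L P₀ := by
    rw [ga_toF, ga_up_self]
  have h2 : toF F σ = 1 := D.gen _ hP hR hQ (D.chi_fix _ hP hR)
  apply AlgEquiv.ext
  intro x
  have h4 := congrArg (fun τ : Gal(L/F) => τ x) h2
  exact h4

theorem TD.unram (W : HeightOneSpectrum (𝓞 L)) (h3 : W.valuation L (bD L) = 1)
    (hW : W.valuation L (algebraMap K L (cj ϖ : K)) = 1) :
    W.asIdeal.ramificationIdx (𝓞 N) = 1 := by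
  have iG : IsGalois N L := IsGalois.tower_top_of_isGalois F N L
  have h1 : W.asIdeal.inertia Gal(L/N) = ⊥ := by
    rw [eq_bot_iff]
    intro σ hσ
    rw [Subgroup.mem_bot]
    exact D.inert W h3 hW σ (fun x => hσ x)
  have hp0 : W.asIdeal.under (𝓞 N) ≠ ⊥ := (W.under (𝓞 N)).ne_bot
  have hfin : Finite (𝓞 N ⧸ W.asIdeal.under (𝓞 N)) :=
    Ideal.finiteQuotientOfFreeOfNeBot _ hp0
  have h2 := Ideal.card_inertia_eq_ramificationIdxIn (G := Gal(L/N)) (W.asIdeal.under (𝓞 N))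
    W.asIdeal
  rw [Ideal.ramificationIdxIn_eq_ramificationIdx _ W.asIdeal Gal(L/N)] at h2
  rw [← h2, h1]
  exact Nat.card_unique

end

section
variable {N L : Type u} [Field N] [NumberField N] [Field L] [NumberField L] [Algebra N L]

private theorem UrC_val (W : HeightOneSpectrum (𝓞 L)) (he : W.asIdeal.ramificationIdx (𝓞 N) = 1)
    (a : N) : W.valuation L (algebraMap N L a) = (W.under (𝓞 N)).valuation N a := by
  by_cases ha : a = 0
  · rw [ha, map_zero, map_zero, map_zero]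
  · have h1 := od_map W a
    rw [he, Nat.cast_one, one_mul] at h1
    have ha' : algebraMap N L a ≠ 0 := by
      intro h0
      exact ha ((map_eq_zero (algebraMap N L)).1 h0)
    rw [val_eq W ha', val_eq _ ha, h1]

private theorem UrC_frob {ℓ : ℕ} (hl : ℓ.Prime) (w : HeightOneSpectrum (𝓞 N))
    (hw : (ℓ : 𝓞 N) ∈ w.asIdeal) (x : 𝓞 N) : ∃ s : 𝓞 N, x - s ^ ℓ ∈ w.asIdeal := by
  have hp : Fact ℓ.Prime := ⟨hl⟩
  have hmax : w.asIdeal.IsMaximal := w.isMaximal
  have hfin : Finite (𝓞 N ⧸ w.asIdeal) := Ideal.finiteQuotientOfFreeOfNeBot w.asIdeal w.ne_bot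
  have hch : CharP (𝓞 N ⧸ w.asIdeal) ℓ := by
    rw [CharP.charP_iff_prime_eq_zero hl]
    have h1 := Ideal.Quotient.eq_zero_iff_mem.2 hw
    rwa [map_natCast] at h1
  let _ : Field (𝓞 N ⧸ w.asIdeal) := Ideal.Quotient.field w.asIdeal
  have hex : ExpChar (𝓞 N ⧸ w.asIdeal) ℓ := ExpChar.prime hl
  have hred : IsReduced (𝓞 N ⧸ w.asIdeal) := inferInstance
  have hperf : PerfectRing (𝓞 N ⧸ w.asIdeal) ℓ := PerfectRing.ofFiniteOfIsReduced ℓ _
  obtain ⟨z, hz⟩ := surjective_frobenius (𝓞 N ⧸ w.asIdeal) ℓ (Ideal.Quotient.mk w.asIdeal x)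
  obtain ⟨s, rfl⟩ := Ideal.Quotient.mk_surjective z
  refine ⟨s, ?_⟩
  rw [← Ideal.Quotient.eq_zero_iff_mem, map_sub, map_pow, ← hz]
  exact sub_self _

theorem dvd_od {ℓ : ℕ} {y : N} {α : L} (hα : α ^ ℓ = algebraMap N L y)
    (W : HeightOneSpectrum (𝓞 L)) (he : W.asIdeal.ramificationIdx (𝓞 N) = 1) :
    (ℓ : ℤ) ∣ od (W.under (𝓞 N)) y := by
  have h1 := od_map W y
  rw [he, Nat.cast_one, one_mul, ← hα, od_pow] at h1
  exact ⟨od W α, h1.symm⟩

theorem wloc_unram [Algebra K N] [Algebra K L] [IsScalarTower K N L] {ϖ : 𝓞 K} {ℓ q : ℕ}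
    (h : PD ϖ ℓ q) {y : N} (hy : y ≠ 0) {α : L} (hα : α ^ ℓ = algebraMap N L y)
    (W : HeightOneSpectrum (𝓞 L)) (he : W.asIdeal.ramificationIdx (𝓞 N) = 1)
    (hW : W.valuation L (algebraMap K L (ϖ : K)) < 1) : WLoc ℓ (W.under (𝓞 N)) y := by
  have hlam : (W.under (𝓞 N)).valuation N (algebraMap K N (ϖ : K)) < 1 := by
    rw [← val_map_lt W, ← IsScalarTower.algebraMap_apply]
    exact hW
  have hellval : (W.under (𝓞 N)).valuation N (ℓ : N) < 1 := by
    rw [h.val_ell hlam]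
    exact hlam
  have hellmem : (ℓ : 𝓞 N) ∈ (W.under (𝓞 N)).asIdeal := by
    rw [← HeightOneSpectrum.valuation_lt_one_iff_mem (K := N)]
    have e : algebraMap (𝓞 N) N (ℓ : 𝓞 N) = (ℓ : N) := map_natCast _ _
    change (W.under (𝓞 N)).valuation N (algebraMap (𝓞 N) N (ℓ : 𝓞 N)) < 1
    rw [e]
    exact hellval
  have hVal := UrC_val (N := N) W he
  generalize hwdef : W.under (𝓞 N) = w at *
  have hj : (ℓ : ℤ) ∣ od w y := by
    rw [← hwdef]
    exact dvd_od hα W he
  obtain ⟨j, hj⟩ := hj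
  obtain ⟨b0, hb0⟩ := exists_od_one w
  have hb00 : b0 ≠ 0 := by
    rintro rfl
    rw [od, map_zero, WithZero.log_zero] at hb0
    omega
  have hb : b0 ^ (-j) ≠ 0 := zpow_ne_zero _ hb00
  generalize hbdef : b0 ^ (-j) = b at *
  have hodb : od w b = -j := by
    rw [← hbdef, od_zpow, hb0, mul_one]
  have hu0 : y * b ^ ℓ ≠ 0 := mul_ne_zero hy (pow_ne_zero _ hb)
  have hodu : od w (y * b ^ ℓ) = 0 := by
    rw [od_mul w hy (pow_ne_zero _ hb), od_pow, hj, hodb]
    ring
  have hvu : w.valuation N (y * b ^ ℓ) = 1 := (val_eq_one_iff w hu0).2 hodu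
  generalize hudef : y * b ^ ℓ = u at *
  obtain ⟨x, hx⟩ := exists_val_lt_of_int w hvu.le 1
  obtain ⟨s, hs⟩ := UrC_frob h.hl w hellmem x
  have hs' : w.valuation N ((x : N) - (s : N) ^ ℓ) < 1 := by
    have h1 := (HeightOneSpectrum.valuation_lt_one_iff_mem (K := N) w (x - s ^ ℓ)).2 hs
    have e : algebraMap (𝓞 N) N (x - s ^ ℓ) = (x : N) - (s : N) ^ ℓ := by
      rw [map_sub, map_pow]
    change w.valuation N (algebraMap (𝓞 N) N (x - s ^ ℓ)) < 1 at h1
    rwa [e] at h1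
  have hexp : (WithZero.exp (-((1 : ℕ) : ℤ)) : WithZero (Multiplicative ℤ)) < 1 := by
    rw [← WithZero.exp_zero, WithZero.exp_lt_exp]
    norm_num
  have hus : w.valuation N (u - (s : N) ^ ℓ) < 1 := by
    have h1 : u - (s : N) ^ ℓ = (u - (x : N)) + ((x : N) - (s : N) ^ ℓ) := by ring
    rw [h1]
    exact Valuation.map_add_lt _ (lt_of_le_of_lt hx hexp) hs'
  have hsl : w.valuation N ((s : N) ^ ℓ) = 1 := by
    have h1 : (s : N) ^ ℓ = u - (u - (s : N) ^ ℓ) := by ring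
    rw [h1, Valuation.map_sub_eq_of_lt_left]
    · exact hvu
    · rw [hvu]
      exact hus
  have hs0 : (s : N) ≠ 0 := by
    intro h0
    rw [h0, zero_pow h.hl.ne_zero, map_zero] at hsl
    exact zero_ne_one hsl
  have hs0' : algebraMap N L (s : N) ≠ 0 := by
    intro h0
    exact hs0 ((map_eq_zero (algebraMap N L)).1 h0)
  have ht : (α * algebraMap N L b) ^ ℓ = algebraMap N L u := by
    rw [mul_pow, hα, ← map_pow, ← map_mul, hudef]
  have key : algebraMap N L (u - (s : N) ^ ℓ) = algebraMap N L ((s : N) ^ ℓ) *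
      ((α * algebraMap N L b / algebraMap N L (s : N)) ^ ℓ - 1) := by
    rw [div_pow, ht, map_sub, map_pow]
    have h1 : (algebraMap N L (s : N)) ^ ℓ ≠ 0 := pow_ne_zero _ hs0'
    field_simp
  have hval1 : W.valuation L (algebraMap N L (u - (s : N) ^ ℓ)) =
      W.valuation L ((α * algebraMap N L b / algebraMap N L (s : N)) ^ ℓ - 1) := by
    rw [key, map_mul, hVal, hsl, one_mul]
  have hz : W.valuation L ((α * algebraMap N L b / algebraMap N L (s : N)) ^ ℓ - 1) < 1 := by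
    rw [← hval1, hVal]
    exact hus
  have hfin := pow_loc h hW hz
  rw [← hval1, hVal] at hfin
  refine ⟨b, (s : N), ?_, ?_⟩
  · rw [hudef]
    exact hvu
  · rw [hudef]
    exact hfin

end

end Pool.Agent.Lib.MP_1a91b9_ntX.DX
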