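import Pool.Agent.Lib.MP_1a91b9_ntX.DB.VT
import Pool.Agent.Lib.MP_1a91b9_ntX.HD
import Pool.Agent.Lib.MP_1a91b9_ntT.DX.Cj

/-!
# The conjugation of `𝓞 K` and the prime element `ϖ` (wrappers of MP_1a91b9_ntT/DX/Cj.lean)
-/

set_option autoImplicit false

namespace Pool.Agent.Lib.MP_1a91b9_ntX.DX

open NumberField IsDedekindDomain WeierstrassCurve Pool.Agent.Lib.MP_1a91b9_ntT
open Pool.Agent.Lib.MP_1a91b9_ntX.DB

export Pool.Agent.Lib.MP_1a91b9_ntT.DX (cj cj_coords cj_cj mul_cj cj_dvd_iff absNorm_cj)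

universe u

variable [DD]

noncomputable section

section
variable {ϖ : 𝓞 K} {ℓ q : ℕ} (h : PD ϖ ℓ q)
include h

theorem pd_cj : PD (cj ϖ) ℓ q := ⟨MP_1a91b9_ntT.DX.pd_cj h.toPD, h.good⟩

theorem pd_mul_cj : ϖ * cj ϖ = (q : 𝓞 K) := MP_1a91b9_ntT.DX.pd_mul_cj h.toPD

/-- the split and the inert case -/
theorem pd_cases : (q = ℓ ∧ IsCoprime ϖ (cj ϖ)) ∨ (q = ℓ ^ 2 ∧ cj ϖ = ϖ) :=
  MP_1a91b9_ntT.DX.pd_cases h.toPD

theorem pd_not_dvd_cj_sub_one (hq : q = ℓ) : ¬ ϖ ∣ cj ϖ - 1 :=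
  MP_1a91b9_ntT.DX.pd_not_dvd_cj_sub_one h.toPD hq

section
variable {F : Type u} [Field F] [NumberField F] [Algebra K F] {w : HeightOneSpectrum (𝓞 F)}

theorem pd_val_three (hw : w.valuation F (algebraMap K F (ϖ : K)) < 1) :
    w.valuation F (3 : F) = 1 := MP_1a91b9_ntT.DX.pd_val_three h.toPD hw

theorem pd_val_coprime (hw : w.valuation F (algebraMap K F (ϖ : K)) < 1) {c : 𝓞 K}
    (hc : ¬ ϖ ∣ c) : w.valuation F (algebraMap K F (c : K)) = 1 :=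
  MP_1a91b9_ntT.DX.pd_val_coprime h.toPD hw hc

theorem pd_val_ell_iff : w.valuation F (ℓ : F) < 1 ↔
    w.valuation F (algebraMap K F (ϖ : K)) < 1 ∨
      w.valuation F (algebraMap K F (cj ϖ : K)) < 1 :=
  MP_1a91b9_ntT.DX.pd_val_ell_iff h.toPD

/-- if `ℓ` has order one at `w` then so has the prime element -/
theorem od_of_un (hw : w.valuation F (algebraMap K F (ϖ : K)) < 1) (hun : od w (ℓ : F) = 1) :
    od w (algebraMap K F (ϖ : K)) = 1 := MP_1a91b9_ntT.DX.od_of_un h.toPD hw hun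

end

/-- a nonzero additive map to `ZMod ℓ` which is zero on the multiples of the conjugate -/
theorem exists_phi : ∃ φ : 𝓞 K →+ ZMod ℓ, φ ≠ 0 ∧ ∀ x : 𝓞 K, cj ϖ ∣ x → φ x = 0 :=
  MP_1a91b9_ntT.DX.exists_phi h.toPD

end

end

end Pool.Agent.Lib.MP_1a91b9_ntX.DX
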