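import Pool.Agent.Lib.MP_1a91b9_ntT.DX.ExPD
import Pool.Agent.Lib.MP_1a91b9_ntX.DB.El

/-!
# DX: existence of the prime element above every prime number `ℓ` which does not divide `6 D`
-/

set_option autoImplicit false

namespace Pool.Agent.Lib.MP_1a91b9_ntX.DX

open NumberField IsDedekindDomain WeierstrassCurve Pool.Agent.Lib.MP_1a91b9_ntT
open Pool.Agent.Lib.MP_1a91b9_ntX.DB

variable [DD]

theorem exists_pd {ℓ : ℕ} (hl : ℓ.Prime) (hg : ¬ (ℓ : ℤ) ∣ 6 * DD.D) :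
    ∃ (ϖ : 𝓞 K) (q : ℕ), PD ϖ ℓ q := by
  have h2 : ℓ ≠ 2 := by
    rintro rfl
    exact hg (Dvd.dvd.mul_right (by norm_num) _)
  have h3 : ℓ ≠ 3 := by
    rintro rfl
    exact hg (Dvd.dvd.mul_right (by norm_num) _)
  have h4 : ℓ ≠ 4 := by
    rintro rfl
    exact absurd hl (by norm_num)
  have h5 : 5 ≤ ℓ := by
    have := hl.two_le
    omega
  obtain ⟨ϖ, q, h⟩ := MP_1a91b9_ntT.DX.exists_pd hl h5
  exact ⟨ϖ, q, ⟨h, hg⟩⟩

end Pool.Agent.Lib.MP_1a91b9_ntX.DX
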