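import Pool.Agent.Lib.MP_1a91b9_ntX.DX.Defs
import Pool.Agent.Lib.MP_1a91b9_ntT.DX.Sat

/-!
# The local parameter of a difference, saturation of the kernel of reduction, `y² = x³ + D`

PROOF. `tc_sub` (compare ntT/DX/Sat.lean, `saa_key` etc.). `tc (-B) = - tc B` exactly, `w (-B) = - w B`. `B = 0` or `A = 0` trivial. Let `t_i`, `w_i` belong to
`A`, `B`, `w_i = t_i^3 + D w_i^3`, `r_i = v t_i`. If `r_1 ≠ r_2`: `v (tc (A - B) - (t_1 - t_2)) ≤ max^4 < max = v (t_1 - t_2)` (`ker_add` with `-B`). Let `r_1 = r_2 = r`.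
If `v (t_1 - t_2) = r` the same. Let `v (t_1 - t_2) < r`; then `v (t_1 + t_2) = v (2 t_1 - (t_1 - t_2)) = r` (`v 2 = 1`: `v_two`), so `A ≠ -B`. If `A = B` trivial
(both sides `0`). Otherwise `xc A ≠ xc B` (the abscissae of `A`, `-B`: equal abscissae would give `A = ± B`). Line through `A` and `-B`: `α = (w_1 + w_2)/(t_1 + t_2)`,
`γ = (w_1 t_2 - w_2 t_1)/(t_1 + t_2)`, `tc (A - B) = t_1 - t_2 + 3 D α^2 γ/(1 + D α^3)` (the computation of `ker_add` in ntX/DB/ValB.lean: the three roots of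
`α t + γ = t^3 + D (α t + γ)^3` are `t_1`, `-t_2`, `t_3`, and `tc (A - B) = - t_3`). `v α ≤ r^2`. `v γ ≤ v (t_1 - t_2) r`: `w_i (1 - D w_i^2) = t_i^3`, so with
`u_i = 1 - D w_i^2` (`v u_i = 1`): `u_1 u_2 (w_1 t_2 - w_2 t_1) = t_1 t_2 (t_1^2 u_2 - t_2^2 u_1) = t_1 t_2 ((t_1 - t_2)(t_1 + t_2) u_2 + D t_2^2 (w_1^2 - w_2^2))`, and
`v (w_1 - w_2) ≤ v (t_1 - t_2)` (`(w_1 - w_2)(1 - D (w_1^2 + w_1 w_2 + w_2^2)) = (t_1 - t_2)(t_1^2 + t_1 t_2 + t_2^2)`). So the error term has `v ≤ v (t_1 - t_2) r < v (t_1 - t_2)`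
(if `v (t_1 - t_2) = 0`, i.e. `t_1 = t_2`, then `w_1 = w_2` and `A = B`).
`ker_of_sm`: transport. `L` from `exists_delta_ext F F`, `δ`; `B` from `exists_val_ext v` (`F' = L`), `v' = B.valuation` (`val_ext_lt`, `val_ext_eq`); apply
`MP_1a91b9_ntT.DX.ker_of_sm` to `(phi L δ hδ).symm` of the images of `R`, `Q` (`phi_ker`, `phi_ord`, `phi_sm`, `pm_sm`); `Ker v' (pm f Q) ↔ Ker v Q` (`xc_pm`, and
`pm f Q = 0` iff `Q = 0`; `1 < v' (xc ..)` iff `1 < v (xc ..)` from the property of `B`). Compare the proof of `ker_of_val` in ntX/DB/Ram.lean.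
-/

set_option autoImplicit false

namespace Pool.Agent.Lib.MP_1a91b9_ntX.DX

open NumberField IsDedekindDomain WeierstrassCurve Pool.Agent.Lib.MP_1a91b9_ntT
open Pool.Agent.Lib.MP_1a91b9_ntX.DB

universe u

variable [DD]

section
variable {F : Type*} [Field F] [Algebra K F] [DecidableEq F] {Γ : Type*}
  [LinearOrderedCommGroupWithZero Γ] (v : Valuation F Γ)

omit [DD] [Algebra K F] [DecidableEq F] in
/-- the valuations of the numerator and the denominator of the slope -/
private theorem SatA_key (d : F) (hvd : v d ≤ 1) (h2 : v (2 : F) = 1) {t1 t2 w1 w2 : F} {r : Γ} (hr0 : 0 < r)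
    (hr1 : r < 1) (ht1 : v t1 = r) (ht2 : v t2 = r) (hw1 : v w1 = r ^ 3) (hw2 : v w2 = r ^ 3)
    (e1 : w1 = t1 ^ 3 + d * w1 ^ 3) (e2 : w2 = t2 ^ 3 + d * w2 ^ 3) (hd : v (t1 - t2) < r) :
    v (t1 * w2 - t2 * w1) = v (t1 - t2) * r ^ 3 ∧ v (w1 + w2) = r ^ 3 := by
  have hr3 : (0 : Γ) < r ^ 3 := pow_pos hr0 3
  have hr31 : r ^ 3 < 1 := pow_lt_one₀ hr0.le hr1 (by norm_num)
  have hsmall : ∀ x : F, v x < 1 → v (d * x) < 1 := by
    intro x hx
    rw [map_mul]
    exact mul_lt_one_of_nonneg_of_lt_one_right hvd zero_le hx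
  have hww : ∀ x y : F, v x = r ^ 3 → v y = r ^ 3 → v (x * y) < 1 := by
    intro x y hx hy
    rw [map_mul, hx, hy]
    exact mul_lt_one_of_nonneg_of_lt_one_right hr31.le zero_le hr31
  have hu1 : v (1 - d * (w1 * w1)) = 1 := v.map_one_sub_of_lt (hsmall _ (hww _ _ hw1 hw1))
  have hu2 : v (1 - d * (w2 * w2)) = 1 := v.map_one_sub_of_lt (hsmall _ (hww _ _ hw2 hw2))
  have hplus : v (t1 + t2) = r := by
    have e : t1 + t2 = 2 * t1 - (t1 - t2) := by ring
    have h3 : v (2 * t1) = r := by rw [map_mul, h2, one_mul, ht1]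
    rw [e, v.map_sub_eq_of_lt_left (by rw [h3]; exact hd), h3]
  constructor
  · -- the denominator
    have hid : (t1 * w2 - t2 * w1) * ((1 - d * (w1 * w1)) * (1 - d * (w2 * w2)) -
        d * (t1 * t2 * (t2 * w1 + t1 * w2))) = -(t1 * t2 * ((t1 - t2) * (t1 + t2))) := by
      linear_combination (t1 * (1 - d * (w1 * w1))) * e2 - (t2 * (1 - d * (w2 * w2))) * e1
    have hb : v (t1 * t2 * (t2 * w1 + t1 * w2)) < 1 := by
      have h5 : v (t2 * w1 + t1 * w2) < 1 := by
        refine v.map_add_lt ?_ ?_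
        · rw [map_mul, ht2, hw1]
          exact mul_lt_one_of_nonneg_of_lt_one_right hr1.le zero_le hr31
        · rw [map_mul, ht1, hw2]
          exact mul_lt_one_of_nonneg_of_lt_one_right hr1.le zero_le hr31
      rw [map_mul]
      refine mul_lt_one_of_nonneg_of_lt_one_right ?_ zero_le h5
      rw [map_mul, ht1, ht2]
      exact mul_le_one' hr1.le hr1.le
    have h6 : v ((1 - d * (w1 * w1)) * (1 - d * (w2 * w2)) - d * (t1 * t2 * (t2 * w1 + t1 * w2))) = 1 := by
      have h7 : v ((1 - d * (w1 * w1)) * (1 - d * (w2 * w2))) = 1 := by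
        rw [map_mul, hu1, hu2, one_mul]
      rw [v.map_sub_eq_of_lt_left (by rw [h7]; exact hsmall _ hb), h7]
    have h8 := congrArg v hid
    rw [map_mul, h6, mul_one, v.map_neg, map_mul, map_mul, map_mul, ht1, ht2, hplus] at h8
    rw [h8]
    have h9 : r ^ 3 = r * r * r := by rw [pow_succ, pow_two]
    rw [h9, mul_comm (v (t1 - t2)) r, ← mul_assoc, mul_comm (v (t1 - t2))]
  · -- the numerator
    have hq : v (w1 ^ 2 + w1 * w2 + w2 ^ 2) < 1 := by
      refine v.map_add_lt (v.map_add_lt ?_ ?_) ?_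
      · rw [pow_two]
        exact hww _ _ hw1 hw1
      · exact hww _ _ hw1 hw2
      · rw [pow_two]
        exact hww _ _ hw2 hw2
    have hu : v (1 - d * (w1 ^ 2 + w1 * w2 + w2 ^ 2)) = 1 := v.map_one_sub_of_lt (hsmall _ hq)
    have hid : (w1 - w2) * (1 - d * (w1 ^ 2 + w1 * w2 + w2 ^ 2)) =
        (t1 - t2) * (t1 ^ 2 + t1 * t2 + t2 ^ 2) := by
      linear_combination e1 - e2
    have h3 : v (t1 ^ 2 + t1 * t2 + t2 ^ 2) ≤ r ^ 2 := by
      refine v.map_add_le (v.map_add_le ?_ ?_) ?_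
      · rw [map_pow, ht1]
      · rw [map_mul, ht1, ht2, pow_two]
      · rw [map_pow, ht2]
    have h4 := congrArg v hid
    rw [map_mul, hu, mul_one, map_mul] at h4
    have h5 : v (w1 - w2) < r ^ 3 := by
      rw [h4]
      calc v (t1 - t2) * v (t1 ^ 2 + t1 * t2 + t2 ^ 2) ≤ v (t1 - t2) * r ^ 2 := mul_le_mul_right h3 _
        _ < r * r ^ 2 := mul_lt_mul_of_pos_right hd (pow_pos hr0 2)
        _ = r ^ 3 := (pow_succ' r 2).symm
    have e : w1 + w2 = 2 * w1 - (w1 - w2) := by ring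
    have h6 : v (2 * w1) = r ^ 3 := by rw [map_mul, h2, one_mul, hw1]
    rw [e, v.map_sub_eq_of_lt_left (by rw [h6]; exact h5), h6]

/-- the abscissa of a difference -/
private theorem SatA_xc {A B : Pt F} (hA : A ≠ 0) (hB : B ≠ 0) (hx : xc A ≠ xc B) :
    A - B ≠ 0 ∧ xc (A - B) = ((yc A + yc B) / (xc A - xc B)) ^ 2 - xc A - xc B := by
  obtain ⟨h1, e1⟩ := exists_mk hA
  obtain ⟨h2, e2⟩ := exists_mk hB
  have h2' : (-yc B) ^ 2 = xc B ^ 3 + dD F := by linear_combination h2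
  have hneg : -B = mkPt (xc B) (-yc B) h2' := by
    conv_lhs => rw [e2]
    exact neg_mk _ _ h2
  obtain ⟨h, e⟩ := mk_add (xc A) (yc A) (xc B) (-yc B) h1 h2' hx
  have hAB : A - B = mkPt (xc A) (yc A) h1 + mkPt (xc B) (-yc B) h2' := by
    rw [← e1, ← hneg, sub_eq_add_neg]
  rw [hAB, e]
  refine ⟨mk_ne_zero _ _ _, ?_⟩
  rw [xc_mk]
  have : yc A - (-yc B) = yc A + yc B := by ring
  rw [this]

omit [DecidableEq F] in
private theorem SatA_negtc (B : Pt F) : tc (-B) = -tc B := by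
  rcases cases_pt B with rfl | ⟨x, y, h, rfl⟩
  · have h1 : -(0 : Pt F) = 0 := Affine.Point.neg_zero
    rw [h1, tc_zero, neg_zero]
  · rw [neg_mk, tc, tc, xc_mk, xc_mk, yc_mk, yc_mk, div_neg]

/-- the local parameter of a difference in the kernel of reduction -/
theorem tc_sub (h2 : v (2 : F) = 1) {A B : Pt F} (hA : Ker v A) (hB : Ker v B) :
    v (tc (A - B)) = v (tc A - tc B) := by
  by_cases hAB : A = B
  · rw [hAB, sub_self, sub_self, tc_zero]
  by_cases hA0 : A = 0
  · rw [hA0, zero_sub, tc_zero, zero_sub, SatA_negtc]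
  by_cases hB0 : B = 0
  · rw [hB0, sub_zero, tc_zero, sub_zero]
  obtain ⟨a1, a2, a3⟩ := ker_w v hA hA0
  obtain ⟨b1, b2, b3⟩ := ker_w v hB hB0
  obtain ⟨ka1, ka2, ka3, ka4⟩ := ker_tc v hA hA0
  obtain ⟨kb1, kb2, kb3, kb4⟩ := ker_tc v hB hB0
  have n1 := SatA_negtc B
  set r : Γ := max (v (tc A)) (v (tc B)) with hr
  have hr1 : r < 1 := max_lt ka1 kb1
  have hr0 : 0 < r := lt_of_lt_of_le (zero_lt_iff.2 ka2) (le_max_left _ _)
  have hr4 : r ^ 4 < r := by
    calc r ^ 4 = r * r ^ 3 := pow_succ' r 3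
      _ < r * 1 := mul_lt_mul_of_pos_left (pow_lt_one₀ hr0.le hr1 (by norm_num)) hr0
      _ = r := mul_one r
  have hle : v (tc A - tc B) ≤ r := v.map_sub _ _
  rcases hle.eq_or_lt with hd | hd
  · have e1 := (ker_add v hA (ker_neg v hB)).2
    rw [n1, v.map_neg, ← hr, ← sub_eq_add_neg] at e1
    have e3 : v (tc (A - B) - (tc A - tc B)) ≤ r ^ 4 := by
      have : tc (A - B) - (tc A - tc B) = tc (A - B) - tc A - -tc B := by
        ring
      rw [this]
      exact e1
    exact v.map_eq_of_sub_lt (lt_of_le_of_lt e3 (hr4.trans_eq hd.symm))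
  · have hvt1 : v (tc A) = r := by
      rcases lt_trichotomy (v (tc A)) (v (tc B)) with h | h | h
      · exfalso
        have h7 : v (tc A - tc B) = v (tc B) := v.map_sub_eq_of_lt_right h
        rw [h7, hr, max_eq_right h.le] at hd
        exact lt_irrefl _ hd
      · rw [hr, ← h, max_self]
      · rw [hr, max_eq_left h.le]
    have hvt2 : v (tc B) = r := by
      rcases lt_trichotomy (v (tc A)) (v (tc B)) with h | h | h
      · rw [hr, max_eq_right h.le]
      · rw [hr, h, max_self]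
      · exfalso
        have h7 : v (tc A - tc B) = v (tc A) := v.map_sub_eq_of_lt_left h
        rw [h7, hr, max_eq_left h.le] at hd
        exact lt_irrefl _ hd
    have hvw1 : v (-1 / yc A) = r ^ 3 := by rw [a2, hvt1]
    have hvw2 : v (-1 / yc B) = r ^ 3 := by rw [b2, hvt2]
    obtain ⟨k1, k2⟩ := SatA_key v (dD F) (v_dD_le v) h2 hr0 hr1 hvt1 hvt2 hvw1 hvw2 a1 b1 hd
    have hr30 : r ^ 3 ≠ 0 := (pow_pos hr0 3).ne'
    set w1 := -1 / yc A with hw1
    set w2 := -1 / yc B with hw2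
    have hw10 : w1 ≠ 0 := by
      intro h
      rw [h, map_zero] at hvw1
      exact hr30 hvw1.symm
    have hw20 : w2 ≠ 0 := by
      intro h
      rw [h, map_zero] at hvw2
      exact hr30 hvw2.symm
    have hyA0 : yc A ≠ 0 := by
      intro h
      rw [hw1, h, div_zero] at hw10
      exact hw10 rfl
    have hyB0 : yc B ≠ 0 := by
      intro h
      rw [hw2, h, div_zero] at hw20
      exact hw20 rfl
    have hyA : yc A = -1 / w1 := by rw [hw1]; field_simp
    have hyB : yc B = -1 / w2 := by rw [hw2]; field_simp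
    have hd0 : v (tc A - tc B) ≠ 0 := by
      intro h
      rw [h, zero_mul] at k1
      have h8 : tc A - tc B = 0 := (v.zero_iff).1 h
      have h9 : tc A * w2 - tc B * w1 = 0 := (v.zero_iff).1 k1
      have h10 : tc A = tc B := sub_eq_zero.1 h8
      have htA : tc A ≠ 0 := fun h => ka2 (by rw [h, map_zero])
      have h11 : w1 = w2 := by
        have : tc A * (w2 - w1) = 0 := by rw [← h10] at h9; linear_combination h9
        rcases mul_eq_zero.1 this with h | h
        · exact absurd h htA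
        · exact (sub_eq_zero.1 h).symm
      exact hAB (pt_ext hA0 hB0 (by rw [a3, b3, h10, h11]) (by rw [hyA, hyB, h11]))
    have hs0 : tc A * w2 - tc B * w1 ≠ 0 := by
      intro h
      rw [h, map_zero] at k1
      exact mul_ne_zero hd0 hr30 k1.symm
    have hxd : xc A - xc B = (tc A * w2 - tc B * w1) / (w1 * w2) := by
      rw [a3, b3]
      field_simp
    have hxne : xc A ≠ xc B := by
      intro h
      rw [h, sub_self] at hxd
      exact (div_ne_zero hs0 (mul_ne_zero hw10 hw20)) hxd.symm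
    obtain ⟨hne, hX⟩ := SatA_xc hA0 hB0 hxne
    have hm : (yc A + yc B) / (xc A - xc B) =
        -((w1 + w2) / (tc A * w2 - tc B * w1)) := by
      rw [hxd, hyA, hyB]
      field_simp
      ring
    have hvm : v ((yc A + yc B) / (xc A - xc B)) = (v (tc A - tc B))⁻¹ := by
      rw [hm, v.map_neg, map_div₀, k1, k2]
      rw [mul_comm, div_mul_eq_div_div, div_self hr30, one_div]
    have hvx : ∀ P : Pt F, v (tc P) = r → v (xc P) * v (tc P) ^ 2 = 1 → v (xc P) = (r ^ 2)⁻¹ := by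
      intro P hP h
      rw [hP] at h
      exact eq_inv_of_mul_eq_one_left h
    have hxA := hvx A hvt1 ka3
    have hxB := hvx B hvt2 kb3
    have hlt : (r ^ 2)⁻¹ < v (((yc A + yc B) / (xc A - xc B)) ^ 2) := by
      rw [map_pow, hvm, ← inv_pow]
      apply pow_lt_pow_left₀ _ zero_le (by norm_num)
      exact inv_strictAnti₀ (zero_lt_iff.2 hd0) hd
    have hvX : v (xc (A - B)) = ((v (tc A - tc B))⁻¹) ^ 2 := by
      have h12 : v (((yc A + yc B) / (xc A - xc B)) ^ 2 - xc A) =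
          v (((yc A + yc B) / (xc A - xc B)) ^ 2) :=
        v.map_sub_eq_of_lt_left (by rw [hxA]; exact hlt)
      rw [hX, v.map_sub_eq_of_lt_left (by rw [h12, hxB]; exact hlt), h12, map_pow, hvm]
    have hK : Ker v (A - B) := ker_sub v hA hB
    have h13 := (ker_tc v hK hne).2.2.1
    rw [hvX] at h13
    have h14 : v (tc (A - B)) ^ 2 = v (tc A - tc B) ^ 2 := by
      have h15 : v (tc A - tc B) ^ 2 ≠ 0 := pow_ne_zero 2 hd0
      rw [inv_pow] at h13
      have := eq_inv_of_mul_eq_one_right h13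
      rw [this, inv_inv]
    exact (pow_left_inj₀ zero_le zero_le (by norm_num)).1 h14

end

section
variable {F : Type u} [Field F] [NumberField F] [Algebra K F] [DecidableEq F] {β : 𝓞 K}
  {Γ : Type*} [LinearOrderedCommGroupWithZero Γ] (v : Valuation F Γ)

private theorem SatA_ext (F : Type u) [Field F] [NumberField F] [Algebra K F] :
    ∃ (L : Type u) (_ : Field L) (_ : NumberField L) (_ : Algebra K L) (_ : Algebra F L)
      (_ : IsScalarTower K F L), ∃ δ : L, 16 * δ ^ 6 = dD L := by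
  obtain ⟨L, i1, i2, i3, i4, i5, i6, i7, i8, -, -, δ, hδ⟩ := exists_delta_ext F F
  exact ⟨L, i1, i2, i3, i5, i7, δ, hδ⟩

/-- the kernel of reduction is saturated with respect to a prime element of the residue
characteristic -/
theorem ker_of_sm (hβ : Prime β) (hβ1 : (3 : 𝓞 K) ∣ β - 1) {R : Pt F} (hR : Ord β R)
    (hv : v (algebraMap K F (β : K)) < 1) (hb : v (bD F) = 1) {Q : Pt F}
    (hQ : Ker v (sm F β Q)) : Ker v Q := by
  classical
  obtain ⟨L, i1, i2, i3, i4, i5, δ, hδ⟩ := SatA_ext F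
  obtain ⟨B, h⟩ := exists_val_ext (F' := L) v
  set f : F →ₐ[K] L := IsScalarTower.toAlgHom K F L with hf
  have hfa : ∀ x : F, f x = algebraMap F L x := fun x => rfl
  have hRR : phi L δ hδ ((phi L δ hδ).symm (pm f R)) = pm f R := (phi L δ hδ).apply_symm_apply _
  have hQQ : phi L δ hδ ((phi L δ hδ).symm (pm f Q)) = pm f Q := (phi L δ hδ).apply_symm_apply _
  have hR' : MP_1a91b9_ntT.DB.Ord β ((phi L δ hδ).symm (pm f R)) := by
    refine (phi_ord hδ).1 ?_
    rw [hRR]
    exact (Ord.map f).2 hR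
  have hb' : B.valuation (bD L) = 1 := by
    have e : bD L = algebraMap F L (bD F) := (map_intCast _ _).symm
    rw [e]
    exact (val_ext_eq v B.valuation h _).2 hb
  have hbe : algebraMap K L (β : K) = algebraMap F L (algebraMap K F (β : K)) :=
    IsScalarTower.algebraMap_apply K F L (β : K)
  have hv' : B.valuation (algebraMap K L (β : K)) < 1 := by
    rw [hbe]
    exact (val_ext_lt v B.valuation h _).2 hv
  have hker : ∀ P : Pt F, Ker B.valuation (pm f P) ↔ Ker v P := by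
    intro P
    unfold Ker
    have e1 : pm f P = 0 ↔ P = 0 := by
      constructor
      · intro e
        apply pm_inj f
        rw [e, map_zero]
      · rintro rfl
        exact map_zero _
    rw [e1, xc_pm, hfa, ← not_le, ← not_le, h]
  have k0 : MP_1a91b9_ntT.DB.Ker B.valuation
      (MP_1a91b9_ntT.DB.sm L β ((phi L δ hδ).symm (pm f Q))) := by
    rw [← phi_ker hδ B.valuation hb', phi_sm, hQQ, ← pm_sm]
    exact (hker _).2 hQ
  have k1 := MP_1a91b9_ntT.DX.ker_of_sm B.valuation hβ hβ1 hR' hv' k0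
  rw [← phi_ker hδ B.valuation hb', hQQ] at k1
  exact (hker Q).1 k1

end

end Pool.Agent.Lib.MP_1a91b9_ntX.DX
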